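import Mathlib

/-!
Randomized id consensus with multi-writer multi-reader registers: the model.
-/

open MeasureTheory
open scoped ENNReal

namespace Pool.Agent.Lib.MP_2ab09f_lc

/-- What a processor does next: read register `r`, write the value `v` to register `r`, or
(it has terminated) output `u`. Registers are indexed by natural numbers and hold natural
numbers. -/
inductive Act where
  | read (r : ℕ)
  | write (r v : ℕ)
  | out (u : ℕ)

/-- A (deterministic) program: the next action of a processor as a function of the list of
responses it got so far (the value found by a read, and `0` as an acknowledgement of a write). -/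
abbrev Prog := List ℕ → Act

/-- A configuration: contents of the registers, and for each processor the list of responses it
got so far. The number of steps a processor has taken is the length of that list. -/
structure Conf (ι : Type*) where
  mem : ℕ → ℕ
  hist : ι → List ℕ

section

variable {ι : Type*} [DecidableEq ι]

/-- Processor `p` takes its next step (nothing happens if it has already output). -/
def step (P : ι → Prog) (c : Conf ι) (p : ι) : Conf ι :=
  match P p (c.hist p) with
  | .read r => ⟨c.mem, Function.update c.hist p (c.hist p ++ [c.mem r])⟩
  | .write r v => ⟨Function.update c.mem r v, Function.update c.hist p (c.hist p ++ [0])⟩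
  | .out _ => c

/-- The configuration reached when the processors take steps in the order of the list `L`, all
registers being initially `0`. -/
def run (P : ι → Prog) (L : List ι) : Conf ι :=
  L.foldl (step P) ⟨fun _ => 0, fun _ => []⟩

/-- In the configuration `c`, processor `p` has output the value `a`. -/
def Outputs (P : ι → Prog) (c : Conf ι) (p : ι) (a : ℕ) : Prop := P p (c.hist p) = .out a

end

/-- A randomized algorithm for `n` processors with coins in the probability space `Ω`: the
program of processor `p` is a function of its id and of the coins. -/
structure Alg (n : ℕ) (Ω : Type*) [MeasurableSpace Ω] where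
  prog : Fin n → ℕ → Ω → Prog
  meas : ∀ p i h a, MeasurableSet {ω | prog p i ω h = a}

variable {n : ℕ} {Ω : Type*} [MeasurableSpace Ω]

/-- The programs, for the id assignment `u` and the coins `ω`. -/
def Alg.at (A : Alg n Ω) (u : Fin n → ℕ) (ω : Ω) : Fin n → Prog := fun p => A.prog p (u p) ω

/-- The algorithm is a correct id consensus algorithm: for every assignment of distinct ids and
every schedule, almost surely every output is the id of one of the processors, and all outputs
are equal. -/
def Alg.Correct (A : Alg n Ω) (μ : Measure Ω) : Prop :=
  ∀ u : Fin n → ℕ, Function.Injective u → ∀ L : List (Fin n), ∀ᵐ ω ∂μ,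
    (∀ p a, Outputs (A.at u ω) (run (A.at u ω) L) p a → ∃ q, a = u q) ∧
    ∀ p p' a a', Outputs (A.at u ω) (run (A.at u ω) L) p a →
      Outputs (A.at u ω) (run (A.at u ω) L) p' a' → a = a'

/-- The expected number of steps that processor `p` takes before it outputs, when the ids are
`u` and the processors are scheduled in the order of the list `L`. -/
noncomputable def Alg.expSteps (A : Alg n Ω) (μ : Measure Ω) (u : Fin n → ℕ) (L : List (Fin n))
    (p : Fin n) : ℝ≥0∞ :=
  ∫⁻ ω, (((run (A.at u ω) L).hist p).length : ℝ≥0∞) ∂μ

/-- The tower function: `tower 0 = 1` and `tower (m + 1) = 2 ^ tower m`. The iterated logarithm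
`log* n` is its inverse. -/
def tower : ℕ → ℕ
  | 0 => 1
  | m + 1 => 2 ^ tower m

end Pool.Agent.Lib.MP_2ab09f_lc
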