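import Mathlib
import Pool.Agent.Lib.MP_2ab09f_lc.Model

/-!
Runs with recorded last writers, and general facts on runs.
-/

namespace Pool.Agent.Lib.MP_2ab09f_lc

variable {ι κ : Type*} [DecidableEq ι] [DecidableEq κ]

/-- configurations where each register records its last writer -/
structure IConf (ι : Type*) where
  mem : ℕ → Option (ι × ℕ)
  hist : ι → List ℕ

/-- contents of a register -/
def val (o : Option (ι × ℕ)) : ℕ := o.elim 0 Prod.snd

omit [DecidableEq ι] in
@[simp] theorem val_none : val (none : Option (ι × ℕ)) = 0 := rfl
omit [DecidableEq ι] in
@[simp] theorem val_some (q : ι) (v : ℕ) : val (some (q, v)) = v := rfl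

/-- a step; if the flag is `false`, the step only acts on the registers -/
def istep (P : ι → Prog) (c : IConf ι) (e : ι × Bool) : IConf ι :=
  match P e.1 (c.hist e.1) with
  | .read r =>
      ⟨c.mem, if e.2 then Function.update c.hist e.1 (c.hist e.1 ++ [val (c.mem r)]) else c.hist⟩
  | .write r v =>
      ⟨Function.update c.mem r (some (e.1, v)),
        if e.2 then Function.update c.hist e.1 (c.hist e.1 ++ [0]) else c.hist⟩
  | .out _ => c

def irunFrom (P : ι → Prog) (c : IConf ι) (L : List (ι × Bool)) : IConf ι := L.foldl (istep P) c

def iinit : IConf ι := ⟨fun _ => none, fun _ => []⟩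

def irun (P : ι → Prog) (L : List (ι × Bool)) : IConf ι := irunFrom P iinit L

def runFrom (P : ι → Prog) (c : Conf ι) (L : List ι) : Conf ι := L.foldl (step P) c

@[simp] theorem irunFrom_nil (P : ι → Prog) (c : IConf ι) : irunFrom P c [] = c := rfl
@[simp] theorem irunFrom_cons (P : ι → Prog) (c : IConf ι) (e : ι × Bool) (L : List (ι × Bool)) :
    irunFrom P c (e :: L) = irunFrom P (istep P c e) L := rfl
theorem irunFrom_append (P : ι → Prog) (c : IConf ι) (L L' : List (ι × Bool)) :
    irunFrom P c (L ++ L') = irunFrom P (irunFrom P c L) L' := List.foldl_append
theorem irun_append (P : ι → Prog) (L L' : List (ι × Bool)) :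
    irun P (L ++ L') = irunFrom P (irun P L) L' := List.foldl_append

/-- relation between a plain and an instrumented configuration; `D` = disposed roles -/
def RelF (c : Conf ι) (c' : IConf ι) (D : Set ι) : Prop :=
  (∀ r, c.mem r = val (c'.mem r)) ∧ ∀ p, p ∉ D → c.hist p = c'.hist p

theorem relF_step (P : ι → Prog) {c : Conf ι} {c' : IConf ι} {D : Set ι} (h : RelF c c' D)
    {e : ι × Bool} (he : e.1 ∉ D) :
    RelF (step P c e.1) (istep P c' e) (D ∪ {p | e.2 = false ∧ p = e.1}) := by
  obtain ⟨h1, h2⟩ := h
  have h3 := h2 _ he
  unfold step istep
  rw [h3]
  rcases e with ⟨p, f⟩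
  simp only at h3 he ⊢
  cases hact : P p (c'.hist p) with
  | read r =>
    refine ⟨h1, ?_⟩
    intro q hq
    simp only [Set.mem_union, Set.mem_ofPred_eq, not_or, not_and] at hq
    cases f with
    | true =>
      simp only [if_true]
      by_cases hqp : q = p
      · subst hqp; simp [h1]
      · simp [Function.update_of_ne hqp, h2 q hq.1]
    | false =>
      have hqp := hq.2 rfl
      simp [Function.update_of_ne hqp, h2 q hq.1]
  | write r v =>
    refine ⟨?_, ?_⟩
    · intro r'
      by_cases hr : r' = r
      · subst hr; simp
      · simp [Function.update_of_ne hr, h1]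
    · intro q hq
      simp only [Set.mem_union, Set.mem_ofPred_eq, not_or, not_and] at hq
      cases f with
      | true =>
        simp only [if_true]
        by_cases hqp : q = p
        · subst hqp; simp
        · simp [Function.update_of_ne hqp, h2 q hq.1]
      | false =>
        have hqp := hq.2 rfl
        simp [Function.update_of_ne hqp, h2 q hq.1]
  | out u =>
    refine ⟨h1, ?_⟩
    intro q hq
    simp only [Set.mem_union, Set.mem_ofPred_eq, not_or, not_and] at hq
    exact h2 q hq.1

theorem relF_runFrom (P : ι → Prog) (L : List (ι × Bool)) {c : Conf ι} {c' : IConf ι}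
    {D : Set ι} (h : RelF c c' D) (hD : ∀ e ∈ L, e.1 ∉ D)
    (hL : L.Pairwise (fun a b => a.2 = false → a.1 ≠ b.1)) :
    RelF (runFrom P c (L.map Prod.fst)) (irunFrom P c' L) (D ∪ {p | (p, false) ∈ L}) := by
  induction L generalizing c c' D with
  | nil =>
    simpa [runFrom] using h
  | cons e L ih =>
    rw [List.pairwise_cons] at hL
    have h1 := relF_step P h (hD e (by simp))
    have h2 := ih h1 ?_ hL.2
    · refine ⟨h2.1, ?_⟩
      intro p hp
      apply h2.2
      intro hp'
      apply hp
      rcases hp' with (hp' | hp') | hp'
      · exact Or.inl hp'
      · right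
        rcases e with ⟨q, f⟩
        simp only [Set.mem_ofPred_eq] at hp'
        obtain ⟨rfl, rfl⟩ := hp'
        simp
      · right
        simp only [Set.mem_ofPred_eq] at hp' ⊢
        exact List.mem_cons_of_mem _ hp'
    · intro e' he'
      simp only [Set.mem_union, Set.mem_ofPred_eq, not_or, not_and]
      refine ⟨hD e' (List.mem_cons_of_mem _ he'), ?_⟩
      intro hf heq
      exact hL.1 e' he' hf heq.symm

theorem run_hist_eq (P : ι → Prog) {L : List (ι × Bool)}
    (hL : L.Pairwise (fun a b => a.2 = false → a.1 ≠ b.1)) {p : ι} (hp : (p, false) ∉ L) :
    (run P (L.map Prod.fst)).hist p = (irun P L).hist p := by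
  have h : RelF (ι := ι) ⟨fun _ => 0, fun _ => []⟩ iinit ∅ := by
    refine ⟨?_, ?_⟩
    · intro r; rfl
    · intro p _; rfl
  have h2 := relF_runFrom P L h (by simp) hL
  exact h2.2 p (by simpa using hp)

theorem istep_hist_of_ne (P : ι → Prog) (c : IConf ι) (e : ι × Bool) (p : ι)
    (h : e ≠ (p, true)) : (istep P c e).hist p = c.hist p := by
  unfold istep
  rcases e with ⟨q, f⟩
  cases hact : P q (c.hist q) with
  | read r =>
    cases f with
    | true =>
      have hne : p ≠ q := by rintro rfl; exact h rfl
      simp [Function.update_of_ne hne]
    | false => simp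
  | write r v =>
    cases f with
    | true =>
      have hne : p ≠ q := by rintro rfl; exact h rfl
      simp [Function.update_of_ne hne]
    | false => simp
  | out u => rfl

theorem irunFrom_hist (P : ι → Prog) (c : IConf ι) (L : List (ι × Bool)) (p : ι)
    (h : (p, true) ∉ L) : (irunFrom P c L).hist p = c.hist p := by
  induction L generalizing c with
  | nil => rfl
  | cons e L ih =>
    simp only [List.mem_cons, not_or] at h
    rw [irunFrom_cons, ih _ h.2, istep_hist_of_ne P c e p (Ne.symm h.1)]

theorem provenance (P : ι → Prog) (L : List (ι × Bool)) {r : ℕ} {q : ι} {v : ℕ}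
    (h : (irun P L).mem r = some (q, v)) :
    ∃ L1 f L2, L = L1 ++ (q, f) :: L2 ∧ P q ((irun P L1).hist q) = .write r v := by
  induction L using List.reverseRecOn with
  | nil => simp [irun, iinit] at h
  | append_singleton L e ih =>
    rw [irun_append, irunFrom_cons, irunFrom_nil] at h
    by_cases h' : (irun P L).mem r = some (q, v)
    · obtain ⟨L1, f, L2, h1, h2⟩ := ih h'
      exact ⟨L1, f, L2 ++ [e], by simp [h1], h2⟩
    · rcases e with ⟨q', f⟩
      cases hact : P q' ((irun P L).hist q') with
      | read r' =>
        simp only [istep, hact] at h
        exact absurd h h'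
      | write r' v' =>
        simp only [istep, hact] at h
        by_cases hr : r = r'
        · subst hr
          simp only [Function.update_self, Option.some.injEq, Prod.mk.injEq] at h
          obtain ⟨rfl, rfl⟩ := h
          exact ⟨L, f, [], rfl, hact⟩
        · rw [Function.update_of_ne hr] at h
          exact absurd h h'
      | out u =>
        simp only [istep, hact] at h
        exact absurd h h'

/-- relation between a run and its restriction to the roles in `A` -/
def RelR (A : ι → Prop) (c c' : IConf ι) : Prop :=
  (∀ p, A p → c.hist p = c'.hist p) ∧
    ∀ r, (c.mem r = none → c'.mem r = none) ∧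
      ∀ q v, c.mem r = some (q, v) → A q → c'.mem r = some (q, v)

theorem relR_step_not {A : ι → Prop} (P : ι → Prog) {c c' : IConf ι} (h : RelR A c c')
    {e : ι × Bool} (he : ¬ A e.1) : RelR A (istep P c e) c' := by
  obtain ⟨h1, h2⟩ := h
  rcases e with ⟨p, f⟩
  simp only at he
  refine ⟨?_, ?_⟩
  · intro q hq
    rw [← h1 q hq]
    apply istep_hist_of_ne
    intro h
    simp only [Prod.mk.injEq] at h
    rw [h.1] at he
    exact he hq
  · intro r
    cases hact : P p (c.hist p) with
    | read r' => simpa only [istep, hact] using h2 r
    | write r' v' =>
      simp only [istep, hact]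
      by_cases hr : r = r'
      · subst hr
        simp only [Function.update_self, reduceCtorEq, false_imp_iff, true_and,
          Option.some.injEq, Prod.mk.injEq]
        rintro q v ⟨rfl, rfl⟩ hq
        exact absurd hq he
      · rw [Function.update_of_ne hr]
        exact h2 r
    | out u => simpa only [istep, hact] using h2 r

theorem relR_step {A : ι → Prop} (P : ι → Prog) {c c' : IConf ι} (h : RelR A c c')
    {e : ι × Bool} (he : A e.1)
    (hr : e.2 = true → ∀ r q v, P e.1 (c.hist e.1) = .read r → c.mem r = some (q, v) → A q) :
    RelR A (istep P c e) (istep P c' e) := by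
  obtain ⟨h1, h2⟩ := h
  rcases e with ⟨p, f⟩
  simp only at he hr
  have h3 := h1 p he
  cases hact : P p (c.hist p) with
  | read r =>
    have hact' : P p (c'.hist p) = .read r := by rw [← h3]; exact hact
    simp only [istep, hact, hact']
    refine ⟨?_, h2⟩
    cases f with
    | false => simpa using h1
    | true =>
      simp only [if_true]
      intro q hq
      by_cases hqp : q = p
      · subst hqp
        simp only [Function.update_self]
        rw [h3]
        congr 2
        cases hm : c.mem r with
        | none => rw [(h2 r).1 hm]
        | some x =>
          rcases x with ⟨q', v'⟩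
          rw [(h2 r).2 q' v' hm (hr rfl r q' v' hact hm)]
      · rw [Function.update_of_ne hqp, Function.update_of_ne hqp]
        exact h1 q hq
  | write r v =>
    have hact' : P p (c'.hist p) = .write r v := by rw [← h3]; exact hact
    simp only [istep, hact, hact']
    refine ⟨?_, ?_⟩
    · cases f with
      | false => simpa using h1
      | true =>
        simp only [if_true]
        intro q hq
        by_cases hqp : q = p
        · subst hqp
          simp only [Function.update_self]
          rw [h3]
        · rw [Function.update_of_ne hqp, Function.update_of_ne hqp]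
          exact h1 q hq
    · intro r'
      by_cases hr' : r' = r
      · subst hr'
        simp
      · dsimp only
        rw [Function.update_of_ne hr', Function.update_of_ne hr']
        exact h2 r'
  | out u =>
    have hact' : P p (c'.hist p) = .out u := by rw [← h3]; exact hact
    simp only [istep, hact, hact']
    exact ⟨h1, h2⟩

open Classical in
theorem relR_irunFrom {A : ι → Prop} (P : ι → Prog) (L : List (ι × Bool)) {c c' : IConf ι}
    (h : RelR A c c')
    (H : ∀ L1 p L2, L = L1 ++ (p, true) :: L2 → A p → ∀ r q v,
      P p ((irunFrom P c L1).hist p) = .read r → (irunFrom P c L1).mem r = some (q, v) → A q) :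
    RelR A (irunFrom P c L) (irunFrom P c' (L.filter (fun e => decide (A e.1)))) := by
  induction L generalizing c c' with
  | nil => simpa using h
  | cons e L ih =>
    have H' : ∀ c₁, c₁ = istep P c e → ∀ L1 p L2, L = L1 ++ (p, true) :: L2 → A p → ∀ r q v,
      P p ((irunFrom P c₁ L1).hist p) = .read r → (irunFrom P c₁ L1).mem r = some (q, v) →
      A q := by
      rintro c₁ rfl L1 p L2 hL
      exact H (e :: L1) p L2 (by rw [hL]; rfl)
    by_cases he : A e.1
    · rw [List.filter_cons_of_pos (by simpa using he), irunFrom_cons, irunFrom_cons]
      refine ih (relR_step P h he ?_) (H' _ rfl)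
      intro hf
      exact H [] e.1 L (by rcases e with ⟨p, f⟩; simp only at hf; subst hf; rfl) he
    · rw [List.filter_cons_of_neg (by simpa using he), irunFrom_cons]
      exact ih (relR_step_not P h he) (H' _ rfl)

/-- renaming of the roles along an injective map -/
theorem irun_map {f : ι → κ} (hf : Function.Injective f) (P : κ → Prog) (L : List (ι × Bool)) :
    (∀ u, (irun P (L.map fun e => (f e.1, e.2))).hist (f u) =
      (irun (fun u => P (f u)) L).hist u) ∧
    ∀ r, (irun P (L.map fun e => (f e.1, e.2))).mem r =
      ((irun (fun u => P (f u)) L).mem r).map (fun x => (f x.1, x.2)) := by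
  induction L using List.reverseRecOn with
  | nil => exact ⟨fun u => rfl, fun r => rfl⟩
  | append_singleton L e ih =>
    rw [List.map_append, irun_append, irun_append]
    simp only [List.map_cons, List.map_nil, irunFrom_cons, irunFrom_nil]
    obtain ⟨h1, h2⟩ := ih
    rcases e with ⟨p, b⟩
    have h3 := h1 p
    have hval : ∀ r, val ((irun P (L.map fun e => (f e.1, e.2))).mem r) =
        val ((irun (fun u => P (f u)) L).mem r) := by
      intro r
      rw [h2]
      cases (irun (fun u => P (f u)) L).mem r <;> rfl
    generalize irun P (L.map fun e => (f e.1, e.2)) = c at *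
    generalize irun (fun u => P (f u)) L = c' at *
    unfold istep
    simp only [h3]
    cases hact : P (f p) (c'.hist p) with
    | read r =>
      refine ⟨?_, h2⟩
      intro u
      cases b with
      | false => simpa using h1 u
      | true =>
        simp only [if_true]
        by_cases hu : u = p
        · subst hu; simp [hval]
        · rw [Function.update_of_ne (fun h => hu (hf h)), Function.update_of_ne hu]
          exact h1 u
    | write r v =>
      refine ⟨?_, ?_⟩
      · intro u
        cases b with
        | false => simpa using h1 u
        | true =>
          simp only [if_true]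
          by_cases hu : u = p
          · subst hu; simp
          · rw [Function.update_of_ne (fun h => hu (hf h)), Function.update_of_ne hu]
            exact h1 u
      · intro r'
        by_cases hr : r' = r
        · subst hr; simp
        · dsimp only
          rw [Function.update_of_ne hr, Function.update_of_ne hr]
          exact h2 r'
    | out u => exact ⟨h1, h2⟩

/-- the run only depends on the programs of the roles taking steps -/
theorem irun_congr {P P' : ι → Prog} {L : List (ι × Bool)} (h : ∀ e ∈ L, P e.1 = P' e.1) :
    irun P L = irun P' L := by
  induction L using List.reverseRecOn with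
  | nil => rfl
  | append_singleton L e ih =>
    rw [irun_append, irun_append, ih (fun e he => h e (by simp [he]))]
    simp only [irunFrom_cons, irunFrom_nil, istep]
    rw [h e (by simp)]

theorem run_append (P : ι → Prog) (L : List ι) (p : ι) :
    run P (L ++ [p]) = step P (run P L) p := by
  simp [run, List.foldl_append]

theorem run_congr {P P' : ι → Prog} {L : List ι} (h : ∀ e ∈ L, P e = P' e) :
    run P L = run P' L := by
  induction L using List.reverseRecOn with
  | nil => rfl
  | append_singleton L e ih =>
    rw [run_append, run_append, ih (fun e he => h e (by simp [he]))]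
    simp only [step]
    rw [h e (by simp)]

/-- renaming for plain runs, along a map injective on the roles involved -/
theorem run_map {f : ι → κ} {S : Set ι} (hf : Set.InjOn f S) (P : κ → Prog) (L : List ι)
    (hL : ∀ u ∈ L, u ∈ S) :
    (∀ u ∈ S, (run P (L.map f)).hist (f u) = (run (fun u => P (f u)) L).hist u) ∧
    (run P (L.map f)).mem = (run (fun u => P (f u)) L).mem := by
  induction L using List.reverseRecOn with
  | nil => exact ⟨fun u _ => rfl, rfl⟩
  | append_singleton L p ih =>
    rw [List.map_append]
    simp only [List.map_cons, List.map_nil]
    rw [run_append, run_append]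
    obtain ⟨h1, h2⟩ := ih (fun u hu => hL u (by simp [hu]))
    have hp : p ∈ S := hL p (by simp)
    have h3 := h1 p hp
    generalize run P (L.map f) = c at *
    generalize run (fun u => P (f u)) L = c' at *
    unfold step
    simp only [h3]
    cases hact : P (f p) (c'.hist p) with
    | read r =>
      refine ⟨?_, h2⟩
      intro u hu
      by_cases hup : u = p
      · subst hup; simp [h2]
      · simp only
        rw [Function.update_of_ne (fun h => hup (hf hu hp h)), Function.update_of_ne hup]
        exact h1 u hu
    | write r v =>
      refine ⟨?_, by simp only [h2]⟩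
      intro u hu
      by_cases hup : u = p
      · subst hup; simp
      · simp only
        rw [Function.update_of_ne (fun h => hup (hf hu hp h)), Function.update_of_ne hup]
        exact h1 u hu
    | out u => exact ⟨h1, h2⟩

/-- a processor has taken as many steps as it occurs in the schedule, or has output -/
theorem run_length (P : ι → Prog) (L : List ι) (p : ι) :
    ((run P L).hist p).length = L.count p ∨ ∃ a, P p ((run P L).hist p) = .out a := by
  induction L using List.reverseRecOn with
  | nil => left; rfl
  | append_singleton L q ih =>
    rw [run_append]
    by_cases hpq : p = q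
    · subst hpq
      cases hact : P p ((run P L).hist p) with
      | read r =>
        rcases ih with ih | ⟨a, ha⟩
        · left
          simp [step, hact, ih]
        · rw [ha] at hact; cases hact
      | write r v =>
        rcases ih with ih | ⟨a, ha⟩
        · left
          simp [step, hact, ih]
        · rw [ha] at hact; cases hact
      | out a =>
        right
        refine ⟨a, ?_⟩
        simp only [step, hact]
    · have h1 : (step P (run P L) q).hist p = (run P L).hist p := by
        unfold step
        cases hact : P q ((run P L).hist q) <;> simp [Function.update_of_ne hpq]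
      rw [h1]
      have h2 : (L ++ [q]).count p = L.count p := by
        rw [List.count_append, List.count_singleton, if_neg (by simpa using Ne.symm hpq), add_zero]
      rw [h2]
      exact ih

end Pool.Agent.Lib.MP_2ab09f_lc
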