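import Mathlib

/-!
The tree-structured sets of roles, and their schedules.
-/

namespace Pool.Agent.Lib.MP_2ab09f_lc

/-- A label: stage `s` at which the child takes its disposable step, class `t` of the child
(number of protected steps it takes before), index `b`. -/
structure Lab where
  s : ℕ
  t : ℕ
  b : ℕ
deriving DecidableEq

abbrev Path := List Lab

/-- labels at stage `s`; there are `d t s` of them of class `t` for each `t ≤ s`. -/
def labs (d : ℕ → ℕ → ℕ) (s : ℕ) : List Lab :=
  (List.range (s + 1)).flatMap fun t => (List.range (d t s)).map fun b => ⟨s, t, b⟩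

theorem mem_labs {d : ℕ → ℕ → ℕ} {s : ℕ} {x : Lab} :
    x ∈ labs d s ↔ x.s = s ∧ x.t ≤ x.s ∧ x.b < d x.t x.s := by
  rcases x with ⟨xs, xt, xb⟩
  simp only [labs, List.mem_flatMap, List.mem_range, List.mem_map, Lab.mk.injEq]
  constructor
  · rintro ⟨t, ht, b, hb, rfl, rfl, rfl⟩
    exact ⟨rfl, by omega, hb⟩
  · rintro ⟨rfl, h1, h2⟩
    exact ⟨xt, by omega, xb, h2, rfl, rfl, rfl⟩

theorem nodup_labs (d : ℕ → ℕ → ℕ) (s : ℕ) : (labs d s).Nodup := by
  unfold labs
  rw [List.nodup_flatMap]
  constructor
  · intro t _
    refine List.Nodup.map ?_ List.nodup_range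
    intro a b h
    simpa using h
  · refine List.Pairwise.imp ?_ (List.nodup_range (n := s + 1))
    intro a b hab
    simp only [Function.onFun, List.disjoint_left, List.mem_map, List.mem_range]
    rintro x ⟨i, _, rfl⟩ ⟨j, _, hj⟩
    simp only [Lab.mk.injEq] at hj
    exact hab hj.2.1.symm

/-- The roles of the tree of class `c` that have a protected step at stage `s`. -/
def prot (d : ℕ → ℕ → ℕ) (s : ℕ) : ℕ → List Path
  | 0 => []
  | c + 1 =>
    if s ≤ c then
      (labs d c).attach.flatMap (fun x => (prot d s x.1.t).map (x.1 :: ·)) ++
        (if s = c then [[]] else prot d s c)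
    else []
termination_by c => c
decreasing_by
  · have := mem_labs.1 x.2
    omega
  · omega

theorem prot_zero (d : ℕ → ℕ → ℕ) (s : ℕ) : prot d s 0 = [] := by rw [prot]

theorem prot_succ (d : ℕ → ℕ → ℕ) {s c : ℕ} (h : s < c) :
    prot d s (c + 1) =
      (labs d c).flatMap (fun x => (prot d s x.t).map (x :: ·)) ++ prot d s c := by
  rw [prot, if_pos h.le, if_neg h.ne]
  congr 1
  rw [List.flatMap_subtype (g := fun x => (prot d s x.t).map (x :: ·)) (by intro x h; rfl)]
  simp

theorem prot_of_le (d : ℕ → ℕ → ℕ) {s c : ℕ} (h : c ≤ s) : prot d s c = [] := by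
  cases c with
  | zero => exact prot_zero d s
  | succ c => rw [prot, if_neg (by omega)]

theorem prot_self (d : ℕ → ℕ → ℕ) (s : ℕ) : prot d s (s + 1) = [[]] := by
  rw [prot, if_pos le_rfl, if_pos rfl]
  rw [List.flatMap_subtype (g := fun x => (prot d s x.t).map (x :: ·)) (by intro x h; rfl)]
  have : ∀ x ∈ labs d s, (prot d s x.t).map (x :: ·) = [] := by
    intro x hx
    have h := mem_labs.1 hx
    rw [prot_of_le d (by omega)]
    rfl
  simp only [List.unattach_attach]
  rw [List.flatMap_eq_nil_iff.2 this, List.nil_append]

/-- Valid roles of a tree of class `c`. -/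
def Valid (d : ℕ → ℕ → ℕ) : ℕ → Path → Prop
  | _, [] => True
  | c, x :: u => x.s < c ∧ x.t ≤ x.s ∧ x.b < d x.t x.s ∧ Valid d x.t u

/-- Class of a role in a tree of class `c`. -/
def cls : ℕ → Path → ℕ
  | c, [] => c
  | _, x :: u => cls x.t u

@[simp] theorem cls_nil (c : ℕ) : cls c [] = c := rfl
@[simp] theorem cls_cons (c : ℕ) (x : Lab) (u : Path) : cls c (x :: u) = cls x.t u := rfl
@[simp] theorem valid_nil (d : ℕ → ℕ → ℕ) (c : ℕ) : Valid d c [] := trivial
theorem valid_cons {d : ℕ → ℕ → ℕ} {c : ℕ} {x : Lab} {u : Path} :
    Valid d c (x :: u) ↔ x.s < c ∧ x.t ≤ x.s ∧ x.b < d x.t x.s ∧ Valid d x.t u := Iff.rfl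

theorem cls_append (c : ℕ) (u w : Path) : cls c (u ++ w) = cls (cls c u) w := by
  induction u generalizing c with
  | nil => rfl
  | cons x u ih => exact ih _

theorem valid_append {d : ℕ → ℕ → ℕ} {c : ℕ} {u w : Path} :
    Valid d c (u ++ w) ↔ Valid d c u ∧ Valid d (cls c u) w := by
  induction u generalizing c with
  | nil => simp
  | cons x u ih =>
    simp only [List.cons_append, valid_cons, ih, cls_cons]
    tauto

theorem cls_le {d : ℕ → ℕ → ℕ} {c : ℕ} {u : Path} (h : Valid d c u) : cls c u ≤ c := by
  induction u generalizing c with
  | nil => exact le_rfl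
  | cons x u ih =>
    have h2 := ih h.2.2.2
    have h3 := h.1
    have h4 := h.2.1
    simp only [cls_cons]
    omega

theorem valid_mono {d : ℕ → ℕ → ℕ} {c c' : ℕ} (hc : c ≤ c') {u : Path} (h : Valid d c u) :
    Valid d c' u := by
  cases u with
  | nil => trivial
  | cons x u => exact ⟨h.1.trans_le hc, h.2⟩

theorem mem_prot {d : ℕ → ℕ → ℕ} {s c : ℕ} {u : Path} :
    u ∈ prot d s c ↔ Valid d c u ∧ s < cls c u := by
  induction c using Nat.strong_induction_on generalizing u with
  | _ c ih =>
    rcases Nat.lt_or_ge s c with hs | hs
    · obtain ⟨c, rfl⟩ : ∃ c', c = c' + 1 := ⟨c - 1, by omega⟩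
      rcases Nat.eq_or_lt_of_le (Nat.lt_succ_iff.1 hs) with h | h
      · subst h
        rw [prot_self]
        simp only [List.mem_singleton]
        constructor
        · rintro rfl
          simp
        · rintro ⟨h1, h2⟩
          cases u with
          | nil => rfl
          | cons x u =>
            have h3 := cls_le h1.2.2.2
            have h4 := h1.1
            have h5 := h1.2.1
            simp only [cls_cons] at h2
            omega
      · rw [prot_succ d h, List.mem_append, List.mem_flatMap, ih c (by omega)]
        constructor
        · rintro (⟨x, hx, hu⟩ | ⟨h1, h2⟩)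
          · rw [List.mem_map] at hu
            obtain ⟨w, hw, rfl⟩ := hu
            have hx' := mem_labs.1 hx
            rw [ih x.t (by omega)] at hw
            exact ⟨⟨by omega, hx'.2.1, hx'.2.2, hw.1⟩, hw.2⟩
          · refine ⟨valid_mono (by omega) h1, ?_⟩
            cases u with
            | nil => simp only [cls_nil] at h2 ⊢; omega
            | cons x u => exact h2
        · rintro ⟨h1, h2⟩
          cases u with
          | nil => right; exact ⟨trivial, by simpa using h⟩
          | cons x u =>
            rcases Nat.eq_or_lt_of_le (Nat.lt_succ_iff.1 h1.1) with h3 | h3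
            · left
              refine ⟨x, mem_labs.2 ⟨h3, h1.2.1, h1.2.2.1⟩, ?_⟩
              rw [List.mem_map]
              refine ⟨u, ?_, rfl⟩
              have h4 := h1.2.1
              rw [ih x.t (by omega)]
              exact ⟨h1.2.2.2, h2⟩
            · right
              exact ⟨⟨h3, h1.2⟩, h2⟩
    · rw [prot_of_le d hs]
      simp only [List.not_mem_nil, false_iff, not_and, not_lt]
      intro h
      exact (cls_le h).trans hs

theorem nodup_prot (d : ℕ → ℕ → ℕ) (s c : ℕ) : (prot d s c).Nodup := by
  induction c using Nat.strong_induction_on with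
  | _ c ih =>
    rcases Nat.lt_or_ge s c with hs | hs
    · obtain ⟨c, rfl⟩ : ∃ c', c = c' + 1 := ⟨c - 1, by omega⟩
      rcases Nat.eq_or_lt_of_le (Nat.lt_succ_iff.1 hs) with h | h
      · subst h
        rw [prot_self]
        exact List.nodup_singleton _
      · rw [prot_succ d h, List.nodup_append]
        refine ⟨?_, ih c (by omega), ?_⟩
        · rw [List.nodup_flatMap]
          constructor
          · intro x hx
            have hx' := mem_labs.1 hx
            exact (ih x.t (by omega)).map (List.cons_injective)
          · refine List.Pairwise.imp ?_ (nodup_labs d c)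
            intro a b hab
            simp only [Function.onFun, List.disjoint_left, List.mem_map]
            rintro x ⟨i, _, rfl⟩ ⟨j, _, hj⟩
            simp only [List.cons.injEq] at hj
            exact hab hj.1.symm
        · intro u hu w hw
          rw [List.mem_flatMap] at hu
          obtain ⟨x, hx, hu⟩ := hu
          rw [List.mem_map] at hu
          obtain ⟨u', hu', rfl⟩ := hu
          rintro rfl
          rw [mem_prot] at hw
          have h1 := hw.1.1
          have h2 := (mem_labs.1 hx).1
          omega
    · rw [prot_of_le d hs]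
      exact List.nodup_nil

/-- the block of a protected step: the refresh, then the step itself. -/
def block (d : ℕ → ℕ → ℕ) (s : ℕ) (p : Path) : List (Path × Bool) :=
  (labs d s).map (fun x => (p ++ [x], false)) ++ [(p, true)]

/-- the schedule of stage `s` of a tree of class `c`. -/
def sched (d : ℕ → ℕ → ℕ) (s c : ℕ) : List (Path × Bool) :=
  (prot d s c).flatMap (block d s)

/-- the schedule of the stages `< t` of a tree of class `c`. -/
def evts (d : ℕ → ℕ → ℕ) (t c : ℕ) : List (Path × Bool) :=
  (List.range t).flatMap (fun s => sched d s c)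

theorem evts_succ (d : ℕ → ℕ → ℕ) (t c : ℕ) : evts d (t + 1) c = evts d t c ++ sched d t c := by
  simp [evts, List.range_succ]

theorem evts_zero (d : ℕ → ℕ → ℕ) (c : ℕ) : evts d 0 c = [] := rfl

/-- `u` is `y` or a descendant of `y` attached to it (through a child) at a stage `< t`. -/
def PP (y : Path) (t : ℕ) (u : Path) : Prop :=
  ∃ w : Path, u = y ++ w ∧ ∀ x ∈ w.head?, x.s < t

theorem PP_self (y : Path) (t : ℕ) : PP y t y := ⟨[], by simp, by simp⟩

theorem PP_append {y w : Path} {t : ℕ} : PP y t (y ++ w) ↔ ∀ x ∈ w.head?, x.s < t := by
  constructor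
  · rintro ⟨w', h, h2⟩
    rw [List.append_cancel_left_eq] at h
    subst h
    exact h2
  · intro h
    exact ⟨w, rfl, h⟩

theorem PP_trans {y p q : Path} {s t : ℕ} (hst : s ≤ t) (h1 : PP y t p) (h2 : PP p s q) :
    PP y t q := by
  obtain ⟨w, rfl, hw⟩ := h1
  obtain ⟨w', rfl, hw'⟩ := h2
  rw [List.append_assoc, PP_append]
  intro x hx
  cases w with
  | nil => exact (hw' x hx).trans_le hst
  | cons a w =>
    simp only [List.cons_append, List.head?_cons, Option.mem_some_iff] at hx
    subst hx
    exact hw a (by simp)

open Classical in
/-- The roles with a protected step at stage `s` in the subtree of `y`. -/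
theorem filter_prot {d : ℕ → ℕ → ℕ} {s t c : ℕ} {y : Path} (hy : Valid d c y) (ht : t ≤ cls c y)
    (hs : s < t) : (prot d s c).filter (fun u => decide (PP y t u)) = (prot d s t).map (y ++ ·) := by
  induction y generalizing c with
  | nil =>
    simp only [List.nil_append, List.map_id']
    simp only [cls_nil] at ht
    induction c, ht using Nat.le_induction with
    | base =>
      rw [List.filter_eq_self]
      intro u hu
      rw [mem_prot] at hu
      simp only [decide_eq_true_eq]
      refine ⟨u, by simp, ?_⟩
      intro x hx
      cases u with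
      | nil => simp at hx
      | cons a u =>
        simp only [List.head?_cons, Option.mem_some_iff] at hx
        subst hx
        exact hu.1.1
    | succ c hc ih =>
      rw [prot_succ d (by omega), List.filter_append, ih trivial]
      refine (congrArg (· ++ _) (List.filter_eq_nil_iff.2 ?_)).trans (List.nil_append _)
      intro u hu
      rw [List.mem_flatMap] at hu
      obtain ⟨x, hx, hu⟩ := hu
      rw [List.mem_map] at hu
      obtain ⟨w, hw, rfl⟩ := hu
      have hx' := (mem_labs.1 hx).1
      simp only [decide_eq_true_eq]
      rintro ⟨w', h, h2⟩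
      simp only [List.nil_append] at h
      subst h
      have := h2 x (by simp)
      omega
  | cons x y ih =>
    obtain ⟨h1, h2, h3, h4⟩ := hy
    simp only [cls_cons] at ht
    have h5 := cls_le h4
    obtain ⟨c, rfl⟩ : ∃ c', c = c' + 1 := ⟨c - 1, by omega⟩
    have hsx : s < x.s := by omega
    have h6 : x.s ≤ c := by omega
    clear h1
    induction c, h6 using Nat.le_induction with
    | base =>
      rw [prot_succ d hsx, List.filter_append]
      have e1 : (prot d s x.s).filter (fun u => decide (PP (x :: y) t u)) = [] := by
        rw [List.filter_eq_nil_iff]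
        intro u hu
        simp only [decide_eq_true_eq]
        rintro ⟨w, rfl, _⟩
        rw [mem_prot] at hu
        exact lt_irrefl _ hu.1.1
      rw [e1, List.append_nil, List.filter_flatMap]
      have e2 : ∀ x' ∈ labs d x.s,
          ((prot d s x'.t).map (x' :: ·)).filter (fun u => decide (PP (x :: y) t u)) =
            if x' = x then (prot d s t).map ((x :: y) ++ ·) else [] := by
        intro x' _
        split_ifs with hxx
        · subst hxx
          have h7 := ih h4 ht
          rw [List.filter_map]
          have e3 : ((fun u => decide (PP (x' :: y) t u)) ∘ (x' :: ·)) =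
              fun u => decide (PP y t u) := by
            funext u
            simp only [Function.comp, decide_eq_decide]
            simp only [PP, List.cons_append, List.cons.injEq, true_and]
          rw [e3, h7, List.map_map]
          rfl
        · rw [List.filter_eq_nil_iff]
          intro u hu
          rw [List.mem_map] at hu
          obtain ⟨w, _, rfl⟩ := hu
          simp only [decide_eq_true_eq]
          rintro ⟨w', h, _⟩
          simp only [List.cons_append, List.cons.injEq] at h
          exact hxx h.1
      have e4 : (labs d x.s).flatMap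
          (fun x' => ((prot d s x'.t).map (x' :: ·)).filter (fun u => decide (PP (x :: y) t u))) =
          (labs d x.s).flatMap (fun x' => if x' = x then (prot d s t).map ((x :: y) ++ ·) else []) :=
        List.flatMap_congr e2
      rw [e4]
      have hx : x ∈ labs d x.s := mem_labs.2 ⟨rfl, h2, h3⟩
      obtain ⟨l1, l2, hl⟩ := List.append_of_mem hx
      have hnd := nodup_labs d x.s
      rw [hl] at hnd ⊢
      rw [List.nodup_append] at hnd
      have hn1 : ∀ z ∈ l1, z ≠ x := by
        intro z hz
        exact hnd.2.2 z hz x (by simp)
      have hn2 : ∀ z ∈ l2, z ≠ x := by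
        intro z hz h
        subst h
        exact (List.nodup_cons.1 hnd.2.1).1 hz
      rw [List.flatMap_append, List.flatMap_cons, if_pos rfl]
      have e5 : l1.flatMap (fun x' => if x' = x then (prot d s t).map ((x :: y) ++ ·) else []) = [] := by
        rw [List.flatMap_eq_nil_iff]
        intro z hz
        rw [if_neg (hn1 z hz)]
      have e6 : l2.flatMap (fun x' => if x' = x then (prot d s t).map ((x :: y) ++ ·) else []) = [] := by
        rw [List.flatMap_eq_nil_iff]
        intro z hz
        rw [if_neg (hn2 z hz)]
      rw [e5, e6]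
      simp
    | succ c hc ih2 =>
      rw [prot_succ d (by omega), List.filter_append, ih2]
      refine (congrArg (· ++ _) (List.filter_eq_nil_iff.2 ?_)).trans (List.nil_append _)
      intro u hu
      rw [List.mem_flatMap] at hu
      obtain ⟨x', hx', hu⟩ := hu
      rw [List.mem_map] at hu
      obtain ⟨w, hw, rfl⟩ := hu
      have hx'' := (mem_labs.1 hx').1
      simp only [decide_eq_true_eq]
      rintro ⟨w', h, _⟩
      simp only [List.cons_append, List.cons.injEq] at h
      rw [h.1] at hx''
      omega

/-- translation of events -/
def shift (y : Path) (e : Path × Bool) : Path × Bool := (y ++ e.1, e.2)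

theorem block_shift (d : ℕ → ℕ → ℕ) (s : ℕ) (y p : Path) :
    block d s (y ++ p) = (block d s p).map (shift y) := by
  simp only [block, List.map_append, List.map_map, List.map_cons, List.map_nil, shift]
  congr 1
  apply List.map_congr_left
  intro x _
  simp [shift]

theorem cls_snoc {c : ℕ} {p : Path} {x : Lab} : cls c (p ++ [x]) = x.t := by
  rw [cls_append]
  rfl

open Classical in
theorem filter_sched {d : ℕ → ℕ → ℕ} {s t c : ℕ} {y : Path} (hy : Valid d c y) (ht : t ≤ cls c y)
    (hs : s < t) : (sched d s c).filter (fun e => decide (PP y t e.1)) =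
      (sched d s t).map (shift y) := by
  have key : ∀ p ∈ prot d s c, (block d s p).filter (fun e => decide (PP y t e.1)) =
      if PP y t p then block d s p else [] := by
    intro p hp
    rw [mem_prot] at hp
    split_ifs with h
    · rw [List.filter_eq_self]
      intro e he
      simp only [decide_eq_true_eq]
      simp only [block, List.mem_append, List.mem_map, List.mem_singleton] at he
      rcases he with ⟨x, hx, rfl⟩ | rfl
      · refine PP_trans (s := s + 1) hs h ⟨[x], rfl, ?_⟩
        intro z hz
        simp only [List.head?_cons, Option.mem_some_iff] at hz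
        subst hz
        have := (mem_labs.1 hx).1
        omega
      · exact h
    · rw [List.filter_eq_nil_iff]
      intro e he
      simp only [decide_eq_true_eq]
      simp only [block, List.mem_append, List.mem_map, List.mem_singleton] at he
      rcases he with ⟨x, hx, rfl⟩ | rfl
      · rintro ⟨w, hw, hw2⟩
        have hx' := mem_labs.1 hx
        rcases List.eq_nil_or_concat w with rfl | ⟨w', z, rfl⟩
        · rw [List.append_nil] at hw
          subst hw
          rw [cls_snoc] at ht
          omega
        · rw [List.concat_eq_append, ← List.append_assoc] at hw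
          have h3 := List.append_inj' hw rfl
          rw [h3.1] at h
          apply h
          refine ⟨w', rfl, ?_⟩
          intro z' hz'
          apply hw2
          cases w' with
          | nil => simp at hz'
          | cons a w' => simpa using hz'
      · exact h
  unfold sched
  rw [List.filter_flatMap, List.flatMap_congr key]
  have e1 : ∀ l : List Path, l.flatMap (fun p => if PP y t p then block d s p else []) =
      (l.filter (fun u => decide (PP y t u))).flatMap (block d s) := by
    intro l
    induction l with
    | nil => rfl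
    | cons a l ih =>
      rw [List.flatMap_cons, ih, List.filter_cons]
      by_cases h : PP y t a
      · simp [h]
      · simp [h]
  rw [e1, filter_prot hy ht hs, List.flatMap_map, List.map_flatMap]
  apply List.flatMap_congr
  intro p _
  exact block_shift d s y p

theorem valid_snoc {d : ℕ → ℕ → ℕ} {s c : ℕ} {p : Path} {x : Lab} (hp : p ∈ prot d s c)
    (hx : x ∈ labs d s) : Valid d c (p ++ [x]) := by
  rw [mem_prot] at hp
  have hx' := mem_labs.1 hx
  rw [valid_append]
  refine ⟨hp.1, ?_, hx'.2.1, hx'.2.2, trivial⟩
  omega

theorem mem_sched {d : ℕ → ℕ → ℕ} {s c : ℕ} {q : Path} {f : Bool} :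
    (q, f) ∈ sched d s c ↔ (f = true ∧ q ∈ prot d s c) ∨
      (f = false ∧ ∃ p ∈ prot d s c, ∃ x ∈ labs d s, q = p ++ [x]) := by
  simp only [sched, List.mem_flatMap, block, List.mem_append, List.mem_map, List.mem_singleton,
    Prod.mk.injEq]
  constructor
  · rintro ⟨p, hp, ⟨x, hx, rfl, rfl⟩ | ⟨rfl, rfl⟩⟩
    · right; exact ⟨rfl, p, hp, x, hx, rfl⟩
    · left; exact ⟨rfl, hp⟩
  · rintro (⟨rfl, h⟩ | ⟨rfl, p, hp, x, hx, rfl⟩)
    · exact ⟨q, h, Or.inr ⟨rfl, rfl⟩⟩
    · exact ⟨p, hp, Or.inl ⟨x, hx, rfl, rfl⟩⟩

/-- roles occur at most once in a stage -/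
theorem nodup_sched (d : ℕ → ℕ → ℕ) (s c : ℕ) : ((sched d s c).map Prod.fst).Nodup := by
  unfold sched
  rw [List.map_flatMap, List.nodup_flatMap]
  constructor
  · intro p hp
    rw [mem_prot] at hp
    simp only [block, List.map_append, List.map_map, List.map_cons, List.map_nil]
    rw [List.nodup_append]
    refine ⟨?_, List.nodup_singleton _, ?_⟩
    · refine (nodup_labs d s).map ?_
      intro a b hab
      simpa using hab
    · intro u hu w hw
      rw [List.mem_map] at hu
      obtain ⟨x, _, rfl⟩ := hu
      rw [List.mem_singleton] at hw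
      subst hw
      simp
  · refine List.Pairwise.imp_of_mem ?_ (nodup_prot d s c)
    intro p p' hp hp' hne
    rw [mem_prot] at hp hp'
    simp only [Function.onFun, block, List.map_append, List.map_map, List.map_cons, List.map_nil,
      List.disjoint_left, List.mem_append, List.mem_map, List.mem_singleton, Function.comp]
    rintro u (⟨x, hx, rfl⟩ | rfl) (⟨x', hx', h⟩ | h)
    · exact hne (List.append_inj' h rfl).1.symm
    · rw [← h, cls_snoc] at hp'
      have := mem_labs.1 hx
      omega
    · rw [← h, cls_snoc] at hp
      have := mem_labs.1 hx'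
      omega
    · exact hne h

theorem pairwise_evts (d : ℕ → ℕ → ℕ) (t c : ℕ) :
    (evts d t c).Pairwise (fun a b => a.2 = false → a.1 ≠ b.1) := by
  induction t with
  | zero => rw [evts_zero]; exact List.Pairwise.nil
  | succ t ih =>
    rw [evts_succ, List.pairwise_append]
    refine ⟨ih, ?_, ?_⟩
    · have h := nodup_sched d t c
      rw [List.Nodup, List.pairwise_map] at h
      refine List.Pairwise.imp ?_ h
      intro a b hab _
      exact hab
    · rintro ⟨u, f⟩ hu ⟨w, g⟩ hw
      simp only
      rintro rfl
      simp only [evts, List.mem_flatMap, List.mem_range] at hu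
      obtain ⟨s, hs, hu⟩ := hu
      rw [mem_sched] at hu hw
      simp only [Bool.false_eq_true, false_and, false_or, true_and] at hu
      obtain ⟨p, hp, x, hx, rfl⟩ := hu
      have hx' := mem_labs.1 hx
      rintro rfl
      rcases hw with ⟨_, h⟩ | ⟨_, p', hp', x', hx', h⟩
      · rw [mem_prot, cls_snoc] at h
        omega
      · have h2 := (List.append_inj' h rfl).2
        simp only [List.cons.injEq, and_true] at h2
        subst h2
        have := mem_labs.1 hx'
        omega

end Pool.Agent.Lib.MP_2ab09f_lc
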