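import Mathlib
import Pool.Agent.Lib.MP_2ab09f_lc.Sem
import Pool.Agent.Lib.MP_2ab09f_lc.Tree

/-!
Stage-wise analysis of the run of the tree-structured schedule.
-/

namespace Pool.Agent.Lib.MP_2ab09f_lc

variable {Θ : Type*} (G : Θ → Prog)

/-- state of the root of a tree after its first `t` protected steps, when only the roles of its
own tree take steps -/
def St (d : ℕ → ℕ → ℕ) (t : ℕ) (σ : Path → Θ) : List ℕ :=
  (irun (fun u => G (σ u)) (evts d t t)).hist []

/-- the assignment seen from `y` -/
def sub (y : Path) (σ : Path → Θ) : Path → Θ := fun u => σ (y ++ u)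

/-- the part of the schedule of stage `s` before the protected step of `p` -/
def pre (d : ℕ → ℕ → ℕ) (s : ℕ) (l1 : List Path) (p : Path) : List (Path × Bool) :=
  l1.flatMap (block d s) ++ (labs d s).map (fun x => (p ++ [x], false))

/-- at stage `s`, no protected read finds a value written from outside of the own tree -/
def Clean (d : ℕ → ℕ → ℕ) (K : ℕ) (σ : Path → Θ) (s : ℕ) : Prop :=
  ∀ l1 p l2, prot d s K = l1 ++ p :: l2 → ∀ r q v,
    G (σ p) ((irunFrom (fun u => G (σ u)) (irun (fun u => G (σ u)) (evts d s K))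
      (pre d s l1 p)).hist p) = .read r →
    (irunFrom (fun u => G (σ u)) (irun (fun u => G (σ u)) (evts d s K))
      (pre d s l1 p)).mem r = some (q, v) → PP p (s + 1) q

theorem flatMap_block_split {d : ℕ → ℕ → ℕ} {s : ℕ} {l : List Path} {L1 L2 : List (Path × Bool)}
    {p : Path} (h : l.flatMap (block d s) = L1 ++ (p, true) :: L2) :
    ∃ l1 l2, l = l1 ++ p :: l2 ∧ L1 = pre d s l1 p := by
  induction l generalizing L1 with
  | nil => simp at h
  | cons a l ih =>
    rw [List.flatMap_cons, List.append_eq_append_iff] at h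
    rcases h with ⟨as, h1, h2⟩ | ⟨bs, h1, h2⟩
    · obtain ⟨l1, l2, h3, h4⟩ := ih h2
      exact ⟨a :: l1, l2, by rw [h3]; rfl, by rw [h1, h4]; simp [pre]⟩
    · cases bs with
      | nil =>
        rw [List.append_nil] at h1
        rw [List.nil_append] at h2
        obtain ⟨l1, l2, h3, h4⟩ := ih (L1 := []) (by rw [List.nil_append]; exact h2.symm)
        refine ⟨a :: l1, l2, by rw [h3]; rfl, ?_⟩
        have : pre d s (a :: l1) p = block d s a ++ pre d s l1 p := by simp [pre]
        rw [this, ← h4, ← h1, List.append_nil]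
      | cons b bs =>
        simp only [List.cons_append, List.cons.injEq] at h2
        obtain ⟨rfl, h2⟩ := h2
        unfold block at h1
        rw [List.append_eq_append_iff] at h1
        rcases h1 with ⟨as, h3, h4⟩ | ⟨cs, h3, h4⟩
        · cases as with
          | nil =>
            simp only [List.nil_append, List.cons.injEq, Prod.mk.injEq, and_true] at h4
            obtain ⟨rfl, _⟩ := h4
            exact ⟨[], l, rfl, by rw [h3]; simp [pre]⟩
          | cons a' as => simp at h4
        · cases cs with
          | nil =>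
            rw [List.append_nil] at h3
            simp only [List.nil_append, List.cons.injEq, Prod.mk.injEq, and_true] at h4
            obtain ⟨rfl, _⟩ := h4
            exact ⟨[], l, rfl, by rw [← h3]; simp [pre]⟩
          | cons c cs =>
            simp only [List.cons_append, List.cons.injEq] at h4
            obtain ⟨rfl, h4⟩ := h4
            have : (p, true) ∈ (labs d s).map (fun x => (a ++ [x], false)) := by
              rw [h3]; simp
            simp at this

open Classical in
theorem relR_evts {d : ℕ → ℕ → ℕ} {K t : ℕ} {σ : Path → Θ} {y : Path} (t' : ℕ) (ht' : t' ≤ t)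
    (hc : ∀ s < t, Clean G d K σ s) :
    RelR (PP y t) (irun (fun u => G (σ u)) (evts d t' K))
      (irun (fun u => G (σ u)) ((evts d t' K).filter (fun e => decide (PP y t e.1)))) := by
  induction t' with
  | zero => exact ⟨fun _ _ => rfl, fun r => ⟨fun _ => rfl, fun q v h => by
      simp [evts_zero, irun, iinit] at h⟩⟩
  | succ t' ih =>
    rw [evts_succ, irun_append, List.filter_append, irun_append]
    refine relR_irunFrom _ _ (ih (by omega)) ?_
    intro L1 p L2 hL hp r q v h1 h2
    obtain ⟨l1, l2, h3, rfl⟩ := flatMap_block_split hL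
    exact PP_trans (by omega) hp (hc t' (by omega) l1 p l2 h3 r q v h1 h2)

open Classical in
theorem filter_evts {d : ℕ → ℕ → ℕ} {t c : ℕ} {y : Path} (hy : Valid d c y) (ht : t ≤ cls c y) :
    (evts d t c).filter (fun e => decide (PP y t e.1)) = (evts d t t).map (shift y) := by
  unfold evts
  rw [List.filter_flatMap, List.map_flatMap]
  apply List.flatMap_congr
  intro s hs
  exact filter_sched hy ht (List.mem_range.1 hs)

/-- The state of a role after `t` stages only depends on its own tree. -/
theorem hist_eq_St {d : ℕ → ℕ → ℕ} {K t : ℕ} {σ : Path → Θ} {y : Path} (hy : Valid d K y)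
    (ht : t ≤ cls K y) (hc : ∀ s < t, Clean G d K σ s) :
    (irun (fun u => G (σ u)) (evts d t K)).hist y = St G d t (sub y σ) := by
  rw [(relR_evts G t le_rfl hc).1 y (PP_self y t), filter_evts hy ht]
  have h := (irun_map (f := fun u : Path => y ++ u) (List.append_right_injective y)
    (fun u => G (σ u)) (evts d t t)).1 []
  rw [List.append_nil] at h
  exact h

/-- the `t`-th action of the root writes `r` -/
def Wr (d : ℕ → ℕ → ℕ) (r t : ℕ) (τ : Path → Θ) : Prop := ∃ v, G (τ []) (St G d t τ) = .write r v

/-- the `s`-th action of the root reads `r` -/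
def Rd (d : ℕ → ℕ → ℕ) (r s : ℕ) (τ : Path → Θ) : Prop := G (τ []) (St G d s τ) = .read r

/-- roles `q` taking their `t`-th step at a stage `≤ s` -/
def occL (d : ℕ → ℕ → ℕ) (K s t : ℕ) : List Path :=
  prot d t K ++ (List.range (s + 1)).flatMap (fun s' => if t ≤ s' then
    (prot d s' K).flatMap (fun p => (List.range (d t s')).map (fun b => p ++ [⟨s', t, b⟩]))
    else [])

/-- the bad event -/
def BadEv (d : ℕ → ℕ → ℕ) (s t : ℕ) (p q : Path) (σ : Path → Θ) : Prop :=
  ∃ r, Rd G d r s (sub p σ) ∧ Wr G d r t (sub q σ) ∧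
    ∀ b < d t s, ¬ Wr G d r t (sub (p ++ [⟨s, t, b⟩]) σ)

theorem hist_const {d : ℕ → ℕ → ℕ} {K : ℕ} (σ : Path → Θ) {q : Path} {t s : ℕ}
    (hq : cls K q ≤ t) (hts : t ≤ s) :
    (irun (fun u => G (σ u)) (evts d s K)).hist q =
      (irun (fun u => G (σ u)) (evts d t K)).hist q := by
  induction s, hts using Nat.le_induction with
  | base => rfl
  | succ s hs ih =>
    rw [evts_succ, irun_append, irunFrom_hist, ih]
    rw [mem_sched]
    simp only [true_and, Bool.true_eq_false, false_and, or_false]
    rw [mem_prot]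
    rintro ⟨_, h⟩
    omega

theorem evts_split {d : ℕ → ℕ → ℕ} {K s : ℕ} {M1 M2 : List (Path × Bool)} {e : Path × Bool}
    (h : evts d s K = M1 ++ e :: M2) :
    ∃ s' < s, ∃ L1 L2, M1 = evts d s' K ++ L1 ∧ sched d s' K = L1 ++ e :: L2 := by
  induction s generalizing M2 with
  | zero => rw [evts_zero] at h; simp at h
  | succ s ih =>
    rw [evts_succ, List.append_eq_append_iff] at h
    rcases h with ⟨as, h1, h2⟩ | ⟨bs, h1, h2⟩
    · exact ⟨s, by omega, as, M2, h1, h2⟩
    · cases bs with
      | nil =>
        rw [List.append_nil] at h1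
        rw [List.nil_append] at h2
        exact ⟨s, by omega, [], M2, by rw [List.append_nil]; exact h1.symm, by
          rw [List.nil_append]; exact h2.symm⟩
      | cons b bs =>
        simp only [List.cons_append, List.cons.injEq] at h2
        obtain ⟨rfl, h2⟩ := h2
        obtain ⟨s', h3, h4⟩ := ih h1
        exact ⟨s', by omega, h4⟩

theorem hist_at_occ {d : ℕ → ℕ → ℕ} {K s : ℕ} (σ : Path → Θ) {M1 M2 : List (Path × Bool)}
    {q : Path} {f : Bool} (h : evts d (s + 1) K = M1 ++ (q, f) :: M2) :
    ∃ t ≤ s, q ∈ occL d K s t ∧ Valid d K q ∧ t ≤ cls K q ∧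
      (irun (fun u => G (σ u)) M1).hist q = (irun (fun u => G (σ u)) (evts d t K)).hist q := by
  obtain ⟨s', hs', L1, L2, rfl, h2⟩ := evts_split h
  have hnd := nodup_sched d s' K
  rw [h2, List.map_append, List.map_cons, List.nodup_append] at hnd
  have hL1 : (q, true) ∉ L1 := by
    intro hq
    exact hnd.2.2 q (List.mem_map.2 ⟨_, hq, rfl⟩) q (by simp) rfl
  have hmem : (q, f) ∈ sched d s' K := by rw [h2]; simp
  rw [irun_append, irunFrom_hist _ _ _ _ hL1]
  rw [mem_sched] at hmem
  rcases hmem with ⟨rfl, hq⟩ | ⟨rfl, p, hp, x, hx, rfl⟩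
  · refine ⟨s', by omega, ?_, ?_, ?_, rfl⟩
    · exact List.mem_append_left _ hq
    · exact (mem_prot.1 hq).1
    · exact (mem_prot.1 hq).2.le
  · have hx' := mem_labs.1 hx
    refine ⟨x.t, by omega, ?_, valid_snoc hp hx, by rw [cls_snoc], ?_⟩
    · refine List.mem_append_right _ ?_
      rw [List.mem_flatMap]
      refine ⟨s', List.mem_range.2 hs', ?_⟩
      rw [if_pos (by omega), List.mem_flatMap]
      refine ⟨p, hp, ?_⟩
      rw [List.mem_map]
      refine ⟨x.b, List.mem_range.2 ?_, ?_⟩
      · rw [← hx'.1]; exact hx'.2.2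
      · rw [← hx'.1]
    · exact hist_const G σ (by rw [cls_snoc]) (by omega)

/-- effect on a register of a list of steps that do not change the states -/
theorem mem_refresh {ι : Type*} [DecidableEq ι] (P : ι → Prog) (c : IConf ι)
    (L : List (ι × Bool)) (hL : ∀ e ∈ L, e.2 = false) {r : ℕ}
    (h : ∃ e ∈ L, ∃ v, P e.1 (c.hist e.1) = .write r v) :
    ∃ e ∈ L, ∃ v, (irunFrom P c L).mem r = some (e.1, v) := by
  induction L using List.reverseRecOn with
  | nil => simp at h
  | append_singleton L e ih =>
    have hhist : (irunFrom P c L).hist = c.hist := by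
      funext p
      refine irunFrom_hist P c L p ?_
      intro hp
      have := hL _ (List.mem_append_left _ hp)
      simp at this
    rw [irunFrom_append, irunFrom_cons, irunFrom_nil]
    by_cases he : ∃ v, P e.1 (c.hist e.1) = .write r v
    · obtain ⟨v, hv⟩ := he
      refine ⟨e, by simp, v, ?_⟩
      unfold istep
      rw [hhist, hv]
      simp
    · have h' : ∃ e ∈ L, ∃ v, P e.1 (c.hist e.1) = .write r v := by
        obtain ⟨e', he', h2⟩ := h
        rw [List.mem_append, List.mem_singleton] at he'
        rcases he' with he' | rfl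
        · exact ⟨e', he', h2⟩
        · exact absurd h2 he
      obtain ⟨e', he', v, hv⟩ := ih (fun e he => hL e (List.mem_append_left _ he)) h'
      refine ⟨e', List.mem_append_left _ he', v, ?_⟩
      unfold istep
      rw [hhist]
      cases hact : P e.1 (c.hist e.1) with
      | read r' => exact hv
      | out u => exact hv
      | write r' v' =>
        have hr : r ≠ r' := by
          rintro rfl
          exact he ⟨v', hact⟩
        dsimp only
        rw [Function.update_of_ne hr]
        exact hv

/-- a violation at stage `s` implies that one of the bad events occurs -/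
theorem exists_badEv {d : ℕ → ℕ → ℕ} {K s : ℕ} {σ : Path → Θ}
    (hc : ∀ s' < s, Clean G d K σ s') (hn : ¬ Clean G d K σ s) :
    ∃ p ∈ prot d s K, ∃ t ≤ s, ∃ q ∈ occL d K s t, Valid d K q ∧ t ≤ cls K q ∧
      ¬ PP p (s + 1) q ∧ BadEv G d s t p q σ := by
  unfold Clean at hn
  push Not at hn
  obtain ⟨l1, p, l2, hl, r, q, v, h1, h2, h3⟩ := hn
  set P : Path → Prog := fun u => G (σ u) with hP
  set c0 := irun P (evts d s K) with hc0
  have hp : p ∈ prot d s K := by rw [hl]; simp
  have hpc := mem_prot.1 hp
  -- the state of p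
  have hsch : sched d s K = pre d s l1 p ++ (p, true) :: l2.flatMap (block d s) := by
    unfold sched
    rw [hl]
    simp [pre, block]
  have hnd := nodup_sched d s K
  rw [hsch, List.map_append, List.map_cons, List.nodup_append] at hnd
  have hpre : (p, true) ∉ pre d s l1 p := by
    intro hq
    exact hnd.2.2 p (List.mem_map.2 ⟨_, hq, rfl⟩) p (by simp) rfl
  have hp1 : (irunFrom P c0 (pre d s l1 p)).hist p = St G d s (sub p σ) := by
    rw [irunFrom_hist _ _ _ _ hpre]
    exact hist_eq_St G hpc.1 hpc.2.le hc
  rw [hp1] at h1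
  -- the writer
  have h2' : (irun P (evts d s K ++ pre d s l1 p)).mem r = some (q, v) := by
    rw [irun_append]; exact h2
  obtain ⟨M1, f, M2, hM, hw⟩ := provenance P _ h2'
  have hM' : evts d (s + 1) K = M1 ++ (q, f) :: (M2 ++ (p, true) :: l2.flatMap (block d s)) := by
    rw [evts_succ, hsch, ← List.append_assoc, hM]
    simp
  obtain ⟨t, ht, hocc, hv, htc, hhist⟩ := hist_at_occ G σ hM'
  have hW : Wr G d r t (sub q σ) := by
    refine ⟨v, ?_⟩
    have h4 := hist_eq_St G (σ := σ) hv htc (fun s' hs' => hc s' (by omega))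
    rw [← hP] at h4
    rw [hhist] at hw
    rw [← h4]
    simpa [sub] using hw
  refine ⟨p, hp, t, ht, q, hocc, hv, htc, h3, r, ?_, hW, ?_⟩
  · simpa [Rd, sub] using h1
  · intro b hb hwb
    apply h3
    -- own refresher writes r
    have hx : (⟨s, t, b⟩ : Lab) ∈ labs d s := mem_labs.2 ⟨rfl, ht, hb⟩
    set x : Lab := ⟨s, t, b⟩ with hxdef
    set c1 := irunFrom P c0 (l1.flatMap (block d s)) with hc1
    have hpre2 : irunFrom P c0 (pre d s l1 p) =
        irunFrom P c1 ((labs d s).map (fun x => (p ++ [x], false))) := by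
      rw [pre, irunFrom_append]
    have hhx : c1.hist (p ++ [x]) = St G d t (sub (p ++ [x]) σ) := by
      rw [hc1, irunFrom_hist, hc0, hist_const G σ (t := t) (by rw [cls_snoc]) ht]
      · refine hist_eq_St G (valid_snoc hp hx) (by rw [cls_snoc]) (fun s' hs' => hc s' (by omega))
      · intro hmem
        rw [List.mem_flatMap] at hmem
        obtain ⟨p', hp', hmem⟩ := hmem
        have hp'' : p' ∈ prot d s K := by rw [hl]; simp [hp']
        simp only [block, List.mem_append, List.mem_map, List.mem_singleton, Prod.mk.injEq,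
          Bool.false_eq_true, and_false, exists_false, and_true, false_or] at hmem
        rw [← hmem, mem_prot, cls_snoc] at hp''
        have : x.t = t := rfl
        omega
    have hex : ∃ e ∈ (labs d s).map (fun x => (p ++ [x], false)), ∃ v,
        P e.1 (c1.hist e.1) = .write r v := by
      refine ⟨(p ++ [x], false), List.mem_map.2 ⟨x, hx, rfl⟩, ?_⟩
      obtain ⟨v', hv'⟩ := hwb
      refine ⟨v', ?_⟩
      simp only
      rw [hhx]
      simpa [sub] using hv'
    obtain ⟨e, he, v', hv'⟩ := mem_refresh P c1 _ (by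
      intro e he
      rw [List.mem_map] at he
      obtain ⟨z, _, rfl⟩ := he
      rfl) hex
    rw [← hpre2, h2] at hv'
    simp only [Option.some.injEq, Prod.mk.injEq] at hv'
    rw [hv'.1]
    rw [List.mem_map] at he
    obtain ⟨z, hz, rfl⟩ := he
    refine ⟨[z], rfl, ?_⟩
    intro z' hz'
    simp only [List.head?_cons, Option.mem_some_iff] at hz'
    subst hz'
    have := (mem_labs.1 hz).1
    omega

end Pool.Agent.Lib.MP_2ab09f_lc
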