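import Mathlib
import Pool.Agent.Lib.MP_2ab09f_lc.Core

/-!
Random assignments of the roles: independence of disjoint trees.
-/

open MeasureTheory ProbabilityTheory
open scoped ENNReal

namespace Pool.Agent.Lib.MP_2ab09f_lc

section general

variable {I Θ : Type*} [Finite Θ] [MeasurableSpace Θ] [MeasurableSingletonClass Θ]
  (μ : Measure Θ) [IsProbabilityMeasure μ]

/-- the event only depends on the coordinates in `S` -/
def DepOn (S : Finset I) (E : Set (I → Θ)) : Prop :=
  ∀ σ σ' : I → Θ, (∀ u ∈ S, σ u = σ' u) → σ ∈ E → σ' ∈ E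

omit [Finite Θ] [MeasurableSpace Θ] [MeasurableSingletonClass Θ] in
theorem DepOn.preimage {S : Finset I} {E : Set (I → Θ)} (h : DepOn S E) :
    E = (fun (σ : I → Θ) (i : S) => σ i) ⁻¹' ((fun (σ : I → Θ) (i : S) => σ i) '' E) := by
  ext σ
  constructor
  · intro hσ
    exact ⟨σ, hσ, rfl⟩
  · rintro ⟨σ', hσ', he⟩
    refine h σ' σ ?_ hσ'
    intro u hu
    exact congrFun he ⟨u, hu⟩

theorem DepOn.measurable {S : Finset I} {E : Set (I → Θ)} (h : DepOn S E) : MeasurableSet E := by
  rw [h.preimage]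
  have : MeasurableSet ((fun (σ : I → Θ) (i : S) => σ i) '' E) := (Set.toFinite _).measurableSet
  exact (measurable_pi_lambda _ (fun i => measurable_pi_apply _)) this

omit [Finite Θ] [MeasurableSpace Θ] [MeasurableSingletonClass Θ] in
theorem DepOn.mono {S T : Finset I} {E : Set (I → Θ)} (h : DepOn S E) (hST : S ⊆ T) :
    DepOn T E := fun σ σ' h1 => h σ σ' (fun u hu => h1 u (hST hu))

omit [Finite Θ] [MeasurableSpace Θ] [MeasurableSingletonClass Θ] in
theorem DepOn.inter {S : Finset I} {E F : Set (I → Θ)} (h : DepOn S E) (h' : DepOn S F) :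
    DepOn S (E ∩ F) := fun σ σ' h1 h2 => ⟨h σ σ' h1 h2.1, h' σ σ' h1 h2.2⟩

theorem DepOn.indep {S T : Finset I} {E F : Set (I → Θ)} (hE : DepOn S E) (hF : DepOn T F)
    (hST : Disjoint S T) :
    Measure.infinitePi (fun _ : I => μ) (E ∩ F) =
      Measure.infinitePi (fun _ : I => μ) E * Measure.infinitePi (fun _ : I => μ) F := by
  have h1 : iIndepFun (fun (i : I) (σ : I → Θ) => σ i) (Measure.infinitePi (fun _ : I => μ)) :=
    iIndepFun_infinitePi (X := fun _ x => x) (fun _ => measurable_id)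
  have h2 := h1.indepFun_finset S T hST (fun i => measurable_pi_apply i)
  rw [hE.preimage, hF.preimage]
  exact h2.measure_inter_preimage_eq_mul _ _ (Set.toFinite _).measurableSet
    (Set.toFinite _).measurableSet

theorem DepOn.indep_iInter [DecidableEq I] {S : Finset I} {E : Set (I → Θ)} (hE : DepOn S E)
    (n : ℕ) (T : ℕ → Finset I) (F : ℕ → Set (I → Θ)) (hF : ∀ b < n, DepOn (T b) (F b))
    (hST : ∀ b < n, Disjoint S (T b)) (hTT : ∀ b < n, ∀ b' < n, b ≠ b' → Disjoint (T b) (T b')) :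
    Measure.infinitePi (fun _ : I => μ) (E ∩ {σ | ∀ b < n, σ ∈ F b}) =
      Measure.infinitePi (fun _ : I => μ) E *
        ∏ b ∈ Finset.range n, Measure.infinitePi (fun _ : I => μ) (F b) := by
  induction n with
  | zero => simp
  | succ n ih =>
    have ih' := ih (fun b hb => hF b (by omega)) (fun b hb => hST b (by omega))
      (fun b hb b' hb' => hTT b (by omega) b' (by omega))
    rw [Finset.prod_range_succ, ← mul_assoc, ← ih']
    have he : E ∩ {σ | ∀ b < n + 1, σ ∈ F b} = (E ∩ {σ | ∀ b < n, σ ∈ F b}) ∩ F n := by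
      ext σ
      simp only [Set.mem_inter_iff, Set.mem_ofPred_eq]
      constructor
      · rintro ⟨h1, h2⟩
        exact ⟨⟨h1, fun b hb => h2 b (by omega)⟩, h2 n (by omega)⟩
      · rintro ⟨⟨h1, h2⟩, h3⟩
        refine ⟨h1, fun b hb => ?_⟩
        rcases Nat.lt_succ_iff_lt_or_eq.1 hb with h | rfl
        · exact h2 b h
        · exact h3
    rw [he]
    refine DepOn.indep μ (S := S ∪ (Finset.range n).biUnion T) (T := T n) ?_ (hF n (by omega)) ?_
    · refine (hE.mono Finset.subset_union_left).inter ?_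
      intro σ σ' h1 h2 b hb
      refine hF b (by omega) σ σ' ?_ (h2 b hb)
      intro u hu
      apply h1
      refine Finset.mem_union_right _ (Finset.mem_biUnion.2 ⟨b, Finset.mem_range.2 hb, hu⟩)
    · rw [Finset.disjoint_union_left, Finset.disjoint_biUnion_left]
      refine ⟨hST n (by omega), ?_⟩
      intro b hb
      rw [Finset.mem_range] at hb
      exact hTT b (by omega) n (by omega) (by omega)

omit [Finite Θ] [MeasurableSingletonClass Θ] in
theorem measure_comp_inj {J : Type*} {f : J → I} (hf : Function.Injective f) {E : Set (J → Θ)}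
    (hE : MeasurableSet E) :
    Measure.infinitePi (fun _ : I => μ) {σ | (fun j => σ (f j)) ∈ E} =
      Measure.infinitePi (fun _ : J => μ) E := by
  rw [← Measure.map_infinitePi_infinitePi_of_inj (P := fun _ : I => μ) hf, Measure.map_apply _ hE]
  · rfl
  · exact measurable_pi_lambda _ (fun i => measurable_pi_apply _)

end general

section tree

variable {Θ : Type*} (G : Θ → Prog)

/-- roles of a tree of class `t` -/
def Rset (d : ℕ → ℕ → ℕ) (t : ℕ) : Finset Path :=
  insert [] ((evts d t t).map Prod.fst).toFinset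

theorem mem_evts_fst {d : ℕ → ℕ → ℕ} {t c : ℕ} {u : Path} (h : u ∈ (evts d t c).map Prod.fst) :
    Valid d c u := by
  rw [List.mem_map] at h
  obtain ⟨⟨u', f⟩, h, rfl⟩ := h
  simp only [evts, List.mem_flatMap, List.mem_range] at h
  obtain ⟨s, hs, h⟩ := h
  rw [mem_sched] at h
  rcases h with ⟨_, h⟩ | ⟨_, p, hp, x, hx, rfl⟩
  · exact (mem_prot.1 h).1
  · exact valid_snoc hp hx

theorem mem_Rset {d : ℕ → ℕ → ℕ} {t : ℕ} {u : Path} (h : u ∈ Rset d t) : Valid d t u := by
  rw [Rset, Finset.mem_insert, List.mem_toFinset] at h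
  rcases h with rfl | h
  · trivial
  · exact mem_evts_fst h

theorem St_congr {d : ℕ → ℕ → ℕ} {t : ℕ} {τ τ' : Path → Θ} (h : ∀ u ∈ Rset d t, τ u = τ' u) :
    St G d t τ = St G d t τ' := by
  unfold St
  rw [irun_congr (P' := fun u => G (τ' u))]
  intro e he
  rw [h]
  rw [Rset, Finset.mem_insert, List.mem_toFinset]
  exact Or.inr (List.mem_map.2 ⟨e, he, rfl⟩)

theorem depOn_Rd (d : ℕ → ℕ → ℕ) (r s : ℕ) : DepOn (Rset d s) {τ : Path → Θ | Rd G d r s τ} := by
  intro τ τ' h h1
  simp only [Set.mem_ofPred_eq, Rd] at h1 ⊢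
  rw [← h [] (by simp [Rset]), ← St_congr G h]
  exact h1

theorem depOn_Wr (d : ℕ → ℕ → ℕ) (r s : ℕ) : DepOn (Rset d s) {τ : Path → Θ | Wr G d r s τ} := by
  intro τ τ' h h1
  simp only [Set.mem_ofPred_eq, Wr] at h1 ⊢
  rw [← h [] (by simp [Rset]), ← St_congr G h]
  exact h1

theorem DepOn.sub {S : Finset Path} {E : Set (Path → Θ)} (h : DepOn S E) (y : Path) :
    DepOn (S.image (fun u => y ++ u)) {σ | MP_2ab09f_lc.sub y σ ∈ E} := by
  intro σ σ' h1 h2
  refine h _ _ ?_ h2
  intro u hu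
  exact h1 _ (Finset.mem_image_of_mem _ hu)

theorem DepOn.compl {I : Type*} {S : Finset I} {E : Set (I → Θ)} (h : DepOn S E) : DepOn S Eᶜ := by
  intro σ σ' h1 h2 h3
  exact h2 (h σ' σ (fun u hu => (h1 u hu).symm) h3)

variable [Finite Θ] [MeasurableSpace Θ] [MeasurableSingletonClass Θ]
  (μ : Measure Θ) [IsProbabilityMeasure μ]

omit [Finite Θ] [MeasurableSingletonClass Θ] in
theorem measure_sub (y : Path) {E : Set (Path → Θ)} (hE : MeasurableSet E) :
    Measure.infinitePi (fun _ : Path => μ) {σ | MP_2ab09f_lc.sub y σ ∈ E} =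
      Measure.infinitePi (fun _ : Path => μ) E :=
  measure_comp_inj μ (f := fun u : Path => y ++ u) (List.append_right_injective y) hE

/-- probability that the `s`-th action reads `r` -/
noncomputable def pR (d : ℕ → ℕ → ℕ) (r s : ℕ) : ℝ≥0∞ :=
  Measure.infinitePi (fun _ : Path => μ) {τ : Path → Θ | Rd G d r s τ}

/-- probability that the `t`-th action writes `r` -/
noncomputable def pW (d : ℕ → ℕ → ℕ) (r t : ℕ) : ℝ≥0∞ :=
  Measure.infinitePi (fun _ : Path => μ) {τ : Path → Θ | Wr G d r t τ}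

theorem disj_aux {d : ℕ → ℕ → ℕ} {K s t : ℕ} {p q u : Path} (hp : Valid d K p)
    (hps : s < cls K p) (ht : t ≤ s) (hn : ¬ PP p (s + 1) q) (h1 : PP p (s + 1) u)
    (h2 : PP q t u) : False := by
  obtain ⟨w1, rfl, hw1⟩ := h1
  obtain ⟨w2, h2, hw2⟩ := h2
  rw [List.append_eq_append_iff] at h2
  rcases h2 with ⟨as, h3, h4⟩ | ⟨bs, h3, h4⟩
  · subst h3
    apply hn
    refine ⟨as, rfl, ?_⟩
    intro x hx
    apply hw1
    rw [h4]
    cases as with
    | nil => simp at hx
    | cons a as => simpa using hx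
  · subst h3
    cases bs with
    | nil =>
      apply hn
      rw [List.append_nil]
      exact PP_self _ _
    | cons z bs =>
      have h5 : z.s < t := hw2 z (by rw [h4]; simp)
      rw [valid_append] at hp
      have h6 := hp.2
      have h7 := cls_le h6.2.2.2
      rw [cls_append, cls_cons] at hps
      have := h6.2.1
      omega

/-- probability of a bad event -/
theorem measure_badEv_le {d : ℕ → ℕ → ℕ} {K s t : ℕ} {p q : Path} (hp : p ∈ prot d s K)
    (ht : t ≤ s) (hn : ¬ PP p (s + 1) q) :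
    Measure.infinitePi (fun _ : Path => μ) {σ | BadEv G d s t p q σ} ≤
      ∑' r, pR G μ d r s * (pW G μ d r t * (1 - pW G μ d r t) ^ (d t s)) := by
  have hpc := mem_prot.1 hp
  have hsub : {σ | BadEv G d s t p q σ} ⊆ ⋃ r, (({σ | MP_2ab09f_lc.sub p σ ∈ {τ | Rd G d r s τ}} ∩
      {σ | MP_2ab09f_lc.sub q σ ∈ {τ | Wr G d r t τ}}) ∩ {σ | ∀ b < d t s, σ ∈
        {σ | MP_2ab09f_lc.sub (p ++ [⟨s, t, b⟩]) σ ∈ {τ | Wr G d r t τ}ᶜ}}) := by
    rintro σ ⟨r, h1, h2, h3⟩
    exact Set.mem_iUnion.2 ⟨r, ⟨h1, h2⟩, fun b hb => h3 b hb⟩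
  refine (measure_mono hsub).trans ((measure_iUnion_le _).trans ?_)
  refine ENNReal.tsum_le_tsum fun r => ?_
  have hPPs : ∀ (y : Path) (t' : ℕ) (u : Path), u ∈ (Rset d t').image (fun u => y ++ u) →
      PP y t' u := by
    intro y t' u hu
    rw [Finset.mem_image] at hu
    obtain ⟨w, hw, rfl⟩ := hu
    refine PP_append.2 ?_
    intro x hx
    have := mem_Rset hw
    cases w with
    | nil => simp at hx
    | cons a w =>
      simp only [List.head?_cons, Option.mem_some_iff] at hx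
      subst hx
      exact this.1
  have e1 := (depOn_Rd G d r s).sub p
  have e2 := (depOn_Wr G d r t).sub q
  have hdis1 : Disjoint ((Rset d s).image (fun u => p ++ u)) ((Rset d t).image (fun u => q ++ u)) := by
    rw [Finset.disjoint_left]
    intro u h1 h2
    refine disj_aux hpc.1 hpc.2 ht hn ?_ (hPPs _ _ _ h2)
    obtain ⟨w, rfl, hw⟩ := hPPs _ _ _ h1
    exact ⟨w, rfl, fun x hx => (hw x hx).trans (Nat.lt_succ_self s)⟩
  have hPPb : ∀ b, ∀ u ∈ (Rset d t).image (fun u => (p ++ [⟨s, t, b⟩]) ++ u),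
      ∃ w, u = p ++ ⟨s, t, b⟩ :: w := by
    intro b u hu
    rw [Finset.mem_image] at hu
    obtain ⟨w, _, rfl⟩ := hu
    exact ⟨w, by simp⟩
  have key := DepOn.indep_iInter μ
    (E := {σ | MP_2ab09f_lc.sub p σ ∈ {τ | Rd G d r s τ}} ∩
      {σ | MP_2ab09f_lc.sub q σ ∈ {τ | Wr G d r t τ}})
    (S := (Rset d s).image (fun u => p ++ u) ∪ (Rset d t).image (fun u => q ++ u))
    ((e1.mono Finset.subset_union_left).inter (e2.mono Finset.subset_union_right)) (d t s)
    (fun b => (Rset d t).image (fun u => (p ++ [⟨s, t, b⟩]) ++ u))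
    (fun b => {σ | MP_2ab09f_lc.sub (p ++ [⟨s, t, b⟩]) σ ∈ {τ | Wr G d r t τ}ᶜ})
    (fun b _ => ((depOn_Wr G d r t).compl).sub _) ?_ ?_
  · rw [key, DepOn.indep μ e1 e2 hdis1]
    have f1 : Measure.infinitePi (fun _ : Path => μ)
        {σ | MP_2ab09f_lc.sub p σ ∈ {τ | Rd G d r s τ}} = pR G μ d r s :=
      measure_sub μ p (depOn_Rd G d r s).measurable
    have f2 : Measure.infinitePi (fun _ : Path => μ)
        {σ | MP_2ab09f_lc.sub q σ ∈ {τ | Wr G d r t τ}} = pW G μ d r t :=
      measure_sub μ q (depOn_Wr G d r t).measurable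
    have f3 : ∀ b, Measure.infinitePi (fun _ : Path => μ)
        {σ | MP_2ab09f_lc.sub (p ++ [⟨s, t, b⟩]) σ ∈ {τ | Wr G d r t τ}ᶜ} = 1 - pW G μ d r t := by
      intro b
      rw [measure_sub μ _ (depOn_Wr G d r t).compl.measurable,
        measure_compl (depOn_Wr G d r t).measurable (measure_ne_top _ _), measure_univ]
      rfl
    rw [f1, f2, Finset.prod_congr rfl (fun b _ => f3 b), Finset.prod_const, Finset.card_range,
      mul_assoc]
  · intro b hb
    rw [Finset.disjoint_union_left]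
    constructor
    · rw [Finset.disjoint_left]
      intro u h1 h2
      obtain ⟨w, rfl⟩ := hPPb b u h2
      have h3 := PP_append.1 (hPPs _ _ _ h1) ⟨s, t, b⟩ (by simp)
      exact lt_irrefl _ h3
    · rw [Finset.disjoint_left]
      intro u h1 h2
      refine disj_aux hpc.1 hpc.2 ht hn ?_ (hPPs _ _ _ h1)
      obtain ⟨w, rfl⟩ := hPPb b u h2
      refine PP_append.2 ?_
      intro x hx
      simp only [List.head?_cons, Option.mem_some_iff] at hx
      subst hx
      exact Nat.lt_succ_self s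
  · intro b hb b' hb' hne
    rw [Finset.disjoint_left]
    intro u h1 h2
    obtain ⟨w, rfl⟩ := hPPb b u h1
    obtain ⟨w', h3⟩ := hPPb b' _ h2
    rw [List.append_cancel_left_eq] at h3
    simp only [List.cons.injEq, Lab.mk.injEq, true_and] at h3
    exact hne h3.1

end tree

end Pool.Agent.Lib.MP_2ab09f_lc
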