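import Mathlib
import Pool.Agent.Lib.MP_2ab09f_lc.Prob

/-!
Counting roles, and the choice of the scales.
-/

open MeasureTheory ProbabilityTheory
open scoped ENNReal

namespace Pool.Agent.Lib.MP_2ab09f_lc

/-! ### Dependence on the sizes -/

theorem labs_congr {d d' : ℕ → ℕ → ℕ} {s : ℕ} (h : ∀ a ≤ s, d a s = d' a s) :
    labs d s = labs d' s := by
  unfold labs
  apply List.flatMap_congr
  intro t ht
  rw [List.mem_range] at ht
  rw [h t (by omega)]

theorem prot_congr {d d' : ℕ → ℕ → ℕ} {t : ℕ} (h : ∀ a b, a ≤ b → b < t → d a b = d' a b)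
    (s c : ℕ) (hc : c ≤ t) : prot d s c = prot d' s c := by
  induction c using Nat.strong_induction_on with
  | _ c ih =>
    rcases Nat.lt_or_ge s c with hs | hs
    · obtain ⟨c, rfl⟩ : ∃ c', c = c' + 1 := ⟨c - 1, by omega⟩
      rcases Nat.eq_or_lt_of_le (Nat.lt_succ_iff.1 hs) with h1 | h1
      · subst h1
        rw [prot_self, prot_self]
      · rw [prot_succ d h1, prot_succ d' h1, ih c (by omega) (by omega),
          labs_congr (d := d) (d' := d') (fun a ha => h a c ha (by omega))]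
        congr 1
        apply List.flatMap_congr
        intro x hx
        have := mem_labs.1 hx
        rw [ih x.t (by omega) (by omega)]
    · rw [prot_of_le d hs, prot_of_le d' hs]

theorem evts_congr {d d' : ℕ → ℕ → ℕ} {t : ℕ} (h : ∀ a b, a ≤ b → b < t → d a b = d' a b) :
    evts d t t = evts d' t t := by
  unfold evts
  apply List.flatMap_congr
  intro s hs
  rw [List.mem_range] at hs
  unfold sched
  rw [prot_congr h s t le_rfl]
  apply List.flatMap_congr
  intro p _
  unfold block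
  rw [labs_congr (d := d) (d' := d') (fun a ha => h a s ha hs)]

theorem St_congr_d {Θ : Type*} (G : Θ → Prog) {d d' : ℕ → ℕ → ℕ} {t : ℕ}
    (h : ∀ a b, a ≤ b → b < t → d a b = d' a b) (τ : Path → Θ) : St G d t τ = St G d' t τ := by
  unfold St
  rw [evts_congr h]

/-! ### Counting -/

theorem length_prot_anti (d : ℕ → ℕ → ℕ) {s t K : ℕ} (h : t ≤ s) :
    (prot d s K).length ≤ (prot d t K).length := by
  refine (List.Nodup.subperm (nodup_prot d s K) ?_).length_le
  intro u hu
  rw [mem_prot] at hu ⊢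
  exact ⟨hu.1, by omega⟩

theorem length_prot_step (d : ℕ → ℕ → ℕ) {t K : ℕ} (h : t + 1 < K) :
    (prot d t K).length ≤ (prot d (t + 1) K).length *
      (1 + ∑ s' ∈ Finset.range K, if t + 1 ≤ s' then d (t + 1) s' else 0) := by
  have hsub : prot d t K ⊆ prot d (t + 1) K ++ (List.range K).flatMap (fun s' =>
      if t + 1 ≤ s' then (prot d s' K).flatMap
        (fun p => (List.range (d (t + 1) s')).map (fun b => p ++ [(⟨s', t + 1, b⟩ : Lab)]))
      else []) := by
    intro u hu
    rw [mem_prot] at hu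
    rw [List.mem_append]
    by_cases h1 : t + 1 < cls K u
    · left
      exact mem_prot.2 ⟨hu.1, h1⟩
    · right
      rcases List.eq_nil_or_concat u with rfl | ⟨p, x, rfl⟩
      · simp only [cls_nil] at h1; omega
      · rw [List.concat_eq_append] at hu h1 ⊢
        rw [cls_snoc] at hu h1
        have hv := valid_append.1 hu.1
        have hx := hv.2
        rw [valid_cons] at hx
        have hxt : x.t = t + 1 := by omega
        have hcp := cls_le hv.1
        rw [List.mem_flatMap]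
        refine ⟨x.s, List.mem_range.2 (by omega), ?_⟩
        rw [if_pos (by omega), List.mem_flatMap]
        refine ⟨p, mem_prot.2 ⟨hv.1, hx.1⟩, ?_⟩
        rw [List.mem_map]
        refine ⟨x.b, List.mem_range.2 ?_, ?_⟩
        · rw [← hxt]; exact hx.2.2.1
        · rw [← hxt]
  refine (List.Nodup.subperm (nodup_prot d t K) hsub).length_le.trans ?_
  rw [List.length_append, mul_add, mul_one]
  gcongr
  rw [List.length_flatMap, Finset.mul_sum]
  rw [← List.sum_toFinset _ List.nodup_range, List.toFinset_range]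
  refine Finset.sum_le_sum fun s' _ => ?_
  split_ifs with h2
  · rw [List.length_flatMap]
    simp only [List.length_map, List.length_range, List.map_const', List.sum_replicate,
      smul_eq_mul]
    exact Nat.mul_le_mul_right _ (length_prot_anti d h2)
  · simp

theorem length_occL (d : ℕ → ℕ → ℕ) (K s t : ℕ) :
    (occL d K s t).length ≤ (prot d t K).length *
      (1 + ∑ s' ∈ Finset.range (s + 1), if t ≤ s' then d t s' else 0) := by
  unfold occL
  rw [List.length_append, mul_add, mul_one]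
  gcongr
  rw [List.length_flatMap, Finset.mul_sum]
  rw [← List.sum_toFinset _ List.nodup_range, List.toFinset_range]
  refine Finset.sum_le_sum fun s' _ => ?_
  split_ifs with h2
  · rw [List.length_flatMap]
    simp only [List.length_map, List.length_range, List.map_const', List.sum_replicate,
      smul_eq_mul]
    exact Nat.mul_le_mul_right _ (length_prot_anti d h2)
  · simp

/-! ### The scale lemma -/

theorem scale_one {x : ℝ} (h0 : 0 ≤ x) (h1 : x ≤ 1) {m : ℕ} (hm : 0 < m) :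
    (1 + 4 * (m : ℝ)) * ((1 - x) * x ^ (4 * m)) ≤ 2 * (x ^ (2 * m) - x ^ (8 * m)) := by
  have e1 : x ^ (2 * m) - x ^ (8 * m) = (1 - x) * ∑ i ∈ Finset.range (6 * m), x ^ (2 * m + i) := by
    have := geom_sum_mul_neg x (6 * m)
    have e2 : ∑ i ∈ Finset.range (6 * m), x ^ (2 * m + i) =
        x ^ (2 * m) * ∑ i ∈ Finset.range (6 * m), x ^ i := by
      rw [Finset.mul_sum]
      exact Finset.sum_congr rfl fun i _ => pow_add _ _ _
    rw [e2]
    have e3 : x ^ (8 * m) = x ^ (2 * m) * x ^ (6 * m) := by rw [← pow_add]; congr 1; ring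
    rw [e3]
    linear_combination (-(x ^ (2 * m))) * this
  have e4 : ((2 * m + 1 : ℕ) : ℝ) * x ^ (4 * m) ≤
      ∑ i ∈ Finset.range (6 * m), x ^ (2 * m + i) := by
    have hsub : Finset.range (2 * m + 1) ⊆ Finset.range (6 * m) := by
      intro i hi
      rw [Finset.mem_range] at hi ⊢
      omega
    have h2 : ∑ i ∈ Finset.range (2 * m + 1), x ^ (2 * m + i) ≤
        ∑ i ∈ Finset.range (6 * m), x ^ (2 * m + i) :=
      Finset.sum_le_sum_of_subset_of_nonneg hsub (fun i _ _ => pow_nonneg h0 _)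
    have h3 : ∑ _i ∈ Finset.range (2 * m + 1), x ^ (4 * m) ≤
        ∑ i ∈ Finset.range (2 * m + 1), x ^ (2 * m + i) := by
      refine Finset.sum_le_sum fun i hi => ?_
      rw [Finset.mem_range] at hi
      exact pow_le_pow_of_le_one h0 h1 (by omega)
    rw [Finset.sum_const, Finset.card_range, nsmul_eq_mul] at h3
    exact h3.trans h2
  rw [e1]
  have h5 : (1 + 4 * (m : ℝ)) ≤ 2 * ((2 * m + 1 : ℕ) : ℝ) := by push_cast; linarith
  have h6 : 0 ≤ (1 - x) * x ^ (4 * m) := mul_nonneg (by linarith) (pow_nonneg h0 _)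
  calc (1 + 4 * (m : ℝ)) * ((1 - x) * x ^ (4 * m))
      ≤ (2 * ((2 * m + 1 : ℕ) : ℝ)) * ((1 - x) * x ^ (4 * m)) :=
        mul_le_mul_of_nonneg_right h5 h6
    _ = 2 * ((1 - x) * (((2 * m + 1 : ℕ) : ℝ) * x ^ (4 * m))) := by ring
    _ ≤ 2 * ((1 - x) * ∑ i ∈ Finset.range (6 * m), x ^ (2 * m + i)) := by
        refine mul_le_mul_of_nonneg_left ?_ (by norm_num)
        exact mul_le_mul_of_nonneg_left e4 (by linarith)

theorem scale_sum {x : ℝ} (h0 : 0 ≤ x) (h1 : x ≤ 1) (c J : ℕ) :
    ∑ a ∈ Finset.range J, (1 + (4 : ℝ) ^ (c + 1 + a)) * ((1 - x) * x ^ (4 ^ (c + 1 + a))) ≤ 2 := by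
  have key : ∀ J, ∑ a ∈ Finset.range J,
      (1 + (4 : ℝ) ^ (c + 1 + a)) * ((1 - x) * x ^ (4 ^ (c + 1 + a))) ≤
      2 * (x ^ (2 * 4 ^ c) - x ^ (2 * 4 ^ (c + J))) := by
    intro J
    induction J with
    | zero => simp
    | succ J ih =>
      rw [Finset.sum_range_succ]
      have h := scale_one h0 h1 (m := 4 ^ (c + J)) (by positivity)
      have e1 : 4 * 4 ^ (c + J) = 4 ^ (c + 1 + J) := by ring
      have e2 : 8 * 4 ^ (c + J) = 2 * 4 ^ (c + (J + 1)) := by ring
      have e3 : (4 : ℝ) * ((4 ^ (c + J) : ℕ) : ℝ) = 4 ^ (c + 1 + J) := by push_cast; ring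
      rw [e1, e2, e3] at h
      linarith
  refine (key J).trans ?_
  have h2 : x ^ (2 * 4 ^ c) ≤ 1 := pow_le_one₀ h0 h1
  have h3 : 0 ≤ x ^ (2 * 4 ^ (c + J)) := pow_nonneg h0 _
  linarith

theorem scale_sum_ennreal {q : ℝ≥0∞} (hq : q ≤ 1) (c J : ℕ) :
    ∑ a ∈ Finset.range J, (1 + (4 : ℝ≥0∞) ^ (c + 1 + a)) * (q * (1 - q) ^ (4 ^ (c + 1 + a))) ≤
      2 := by
  have hq' : q ≠ ⊤ := ne_top_of_le_ne_top ENNReal.one_ne_top hq
  obtain ⟨y, rfl⟩ : ∃ y : NNReal, q = y := ⟨q.toNNReal, (ENNReal.coe_toNNReal hq').symm⟩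
  have hy : y ≤ 1 := by exact_mod_cast hq
  have h := scale_sum (x := 1 - (y : ℝ)) (by
    have : (y : ℝ) ≤ 1 := by exact_mod_cast hy
    linarith) (by
    have : 0 ≤ (y : ℝ) := y.2
    linarith) c J
  have e : ∑ a ∈ Finset.range J,
      (1 + (4 : ℝ≥0∞) ^ (c + 1 + a)) * ((y : ℝ≥0∞) * (1 - (y : ℝ≥0∞)) ^ (4 ^ (c + 1 + a))) =
      ((∑ a ∈ Finset.range J, (1 + (4 : NNReal) ^ (c + 1 + a)) *
        (y * (1 - y) ^ (4 ^ (c + 1 + a))) : NNReal) : ℝ≥0∞) := by
    push_cast
    rfl
  rw [e]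
  have h2 : (∑ a ∈ Finset.range J, (1 + (4 : NNReal) ^ (c + 1 + a)) *
        (y * (1 - y) ^ (4 ^ (c + 1 + a))) : NNReal) ≤ 2 := by
    rw [← NNReal.coe_le_coe]
    push_cast [NNReal.coe_sub hy]
    simpa using h
  exact_mod_cast h2

/-! ### Sums over a product -/

theorem sum_update {ι : Type*} [DecidableEq ι] [Fintype ι] {α : ι → Type*} [∀ i, Fintype (α i)]
    (i : ι) (F : (∀ i, α i) → ℝ≥0∞) :
    ∑ f : (∀ i, α i), ∑ a : α i, F (Function.update f i a) =
      (Fintype.card (α i) : ℝ≥0∞) * ∑ f : (∀ i, α i), F f := by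
  classical
  rw [← Fintype.sum_prod_type' (f := fun (f : ∀ i, α i) (a : α i) => F (Function.update f i a))]
  have h : ∑ x : (∀ i, α i) × α i, F (Function.update x.1 i x.2) =
      ∑ x : (∀ i, α i) × α i, F x.1 := by
    let e : ((∀ i, α i) × α i) → ((∀ i, α i) × α i) := fun x => (Function.update x.1 i x.2, x.1 i)
    have he : Function.Involutive e := by
      rintro ⟨f, a⟩
      simp [e]
    exact Fintype.sum_equiv he.toPerm _ _ (fun x => rfl)
  rw [h, Fintype.sum_prod_type]
  simp only [Finset.sum_const, Finset.card_univ, nsmul_eq_mul]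
  rw [Finset.mul_sum]

end Pool.Agent.Lib.MP_2ab09f_lc
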