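import Mathlib
import Pool.Agent.Lib.MP_2ab09f_lc.Scale

/-!
The family of size functions, and the average probability of a violation.
-/

open MeasureTheory ProbabilityTheory
open scoped ENNReal

namespace Pool.Agent.Lib.MP_2ab09f_lc

/-- number of candidate scales, for a bound `B` on the number of roles -/
def JJ (k B : ℕ) : ℕ := 32 * k ^ 2 * (k + 1) * B ^ 2

/-- bound on the number of roles of class `> k - 1 - i` -/
def bb (k : ℕ) : ℕ → ℕ
  | 0 => 2
  | i + 1 => bb k i * (1 + k * 4 ^ (k * JJ k (bb k i)))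

/-- number of candidate scales for the refreshers of class `t` -/
def Jt (k t : ℕ) : ℕ := JJ k (bb k (k - 1 - t))

/-- the choice of the scales -/
abbrev Fam (k : ℕ) := (p : Fin k × Fin k) → Fin (Jt k p.1)

def jj {k : ℕ} (f : Fam k) (t s : ℕ) : ℕ :=
  if h : t < k ∧ s < k then (f (⟨t, h.1⟩, ⟨s, h.2⟩) : ℕ) else 0

/-- sizes of the refreshes -/
def dd {k : ℕ} (f : Fam k) (t s : ℕ) : ℕ :=
  if s < k then 4 ^ ((s - t) * Jt k t + 1 + jj f t s) else if t = k then 1 else 0

theorem bb_pos (k i : ℕ) : 0 < bb k i := by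
  induction i with
  | zero => norm_num [bb]
  | succ i ih => rw [bb]; positivity

theorem Jt_pos {k t : ℕ} (hk : 0 < k) : 0 < Jt k t := by
  unfold Jt JJ
  have := bb_pos k (k - 1 - t)
  positivity

theorem jj_lt {k : ℕ} (hk : 0 < k) (f : Fam k) (t s : ℕ) : jj f t s < Jt k t := by
  unfold jj
  split_ifs with h
  · exact (f (⟨t, h.1⟩, ⟨s, h.2⟩)).2
  · exact Jt_pos hk

theorem dd_of_lt {k : ℕ} (f : Fam k) {t s : ℕ} (hs : s < k) :
    dd f t s = 4 ^ ((s - t) * Jt k t + 1 + jj f t s) := by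
  rw [dd, if_pos hs]

theorem dd_le {k : ℕ} (f : Fam k) {t s : ℕ} (hs : s < k) : dd f t s ≤ 4 ^ (k * Jt k t) := by
  rw [dd_of_lt f hs]
  refine Nat.pow_le_pow_right (by norm_num) ?_
  have h1 := jj_lt (by omega) f t s
  have h2 : (s - t) * Jt k t + Jt k t ≤ k * Jt k t := by
    have : (s - t) * Jt k t + Jt k t = (s - t + 1) * Jt k t := by ring
    rw [this]
    exact Nat.mul_le_mul_right _ (by omega)
  omega

theorem dd_mono {k : ℕ} (f : Fam k) {t s' s : ℕ} (hs : s < k) (h : s' ≤ s) (ht : t ≤ s') :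
    dd f t s' ≤ dd f t s := by
  rw [dd_of_lt f hs, dd_of_lt f (h.trans_lt hs)]
  rcases Nat.eq_or_lt_of_le h with rfl | h'
  · exact le_rfl
  · refine Nat.pow_le_pow_right (by norm_num) ?_
    have h1 := jj_lt (by omega) f t s'
    have h2 : (s' - t) * Jt k t + Jt k t ≤ (s - t) * Jt k t := by
      have : (s' - t) * Jt k t + Jt k t = (s' - t + 1) * Jt k t := by ring
      rw [this]
      exact Nat.mul_le_mul_right _ (by omega)
    omega

theorem dd_top_self {k : ℕ} (f : Fam k) : dd f k k = 1 := by simp [dd]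
theorem dd_top {k : ℕ} (f : Fam k) {t : ℕ} (ht : t < k) : dd f t k = 0 := by simp [dd, ht.ne]

theorem length_prot_le {k : ℕ} (f : Fam k) (i : ℕ) (hi : i < k) :
    (prot (dd f) (k - 1 - i) (k + 1)).length ≤ bb k i := by
  induction i with
  | zero =>
    have h1 := length_prot_step (dd f) (t := k - 1) (K := k + 1) (by omega)
    have e : k - 1 + 1 = k := by omega
    rw [e, prot_self] at h1
    simp only [List.length_singleton, one_mul] at h1
    rw [Nat.sub_zero]
    refine h1.trans ?_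
    rw [Finset.sum_range_succ, if_pos le_rfl, dd_top_self, Finset.sum_eq_zero]
    · norm_num [bb]
    · intro s hs
      rw [Finset.mem_range] at hs
      rw [if_neg (by omega)]
  | succ i ih =>
    have ih' := ih (by omega)
    have h1 := length_prot_step (dd f) (t := k - 1 - (i + 1)) (K := k + 1) (by omega)
    have e : k - 1 - (i + 1) + 1 = k - 1 - i := by omega
    rw [e] at h1
    refine h1.trans ?_
    rw [bb]
    refine Nat.mul_le_mul ih' ?_
    gcongr
    rw [Finset.sum_range_succ, if_pos (by omega), dd_top f (by omega), add_zero]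
    calc ∑ s' ∈ Finset.range k, (if k - 1 - i ≤ s' then dd f (k - 1 - i) s' else 0)
        ≤ ∑ _s' ∈ Finset.range k, 4 ^ (k * JJ k (bb k i)) := by
          refine Finset.sum_le_sum fun s' hs' => ?_
          rw [Finset.mem_range] at hs'
          split_ifs with h
          · have h2 := dd_le f (t := k - 1 - i) hs'
            unfold Jt at h2
            have e2 : k - 1 - (k - 1 - i) = i := by omega
            rw [e2] at h2
            exact h2
          · exact Nat.zero_le _
      _ = k * 4 ^ (k * JJ k (bb k i)) := by simp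

/-- bound on the number of roles of class `> t` -/
def Bt (k t : ℕ) : ℕ := bb k (k - 1 - t)

theorem length_prot_le' {k : ℕ} (f : Fam k) {t : ℕ} (ht : t < k) :
    (prot (dd f) t (k + 1)).length ≤ Bt k t := by
  have := length_prot_le f (k - 1 - t) (by omega)
  have e : k - 1 - (k - 1 - t) = t := by omega
  rw [e] at this
  exact this

theorem length_occL_le {k : ℕ} (f : Fam k) {s t : ℕ} (hs : s < k) (ht : t ≤ s) :
    (prot (dd f) s (k + 1)).length * (occL (dd f) (k + 1) s t).length ≤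
      Bt k t ^ 2 * (k + 1) * (1 + dd f t s) := by
  have h1 := length_prot_anti (dd f) (K := k + 1) ht
  have h2 := length_prot_le' f (t := t) (by omega)
  have h3 := length_occL (dd f) (k + 1) s t
  have h4 : (1 + ∑ s' ∈ Finset.range (s + 1), if t ≤ s' then dd f t s' else 0) ≤
      (k + 1) * (1 + dd f t s) := by
    have h5 : (∑ s' ∈ Finset.range (s + 1), if t ≤ s' then dd f t s' else 0) ≤
        ∑ _s' ∈ Finset.range (s + 1), dd f t s := by
      refine Finset.sum_le_sum fun s' hs' => ?_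
      rw [Finset.mem_range] at hs'
      split_ifs with h
      · exact dd_mono f hs (by omega) h
      · exact Nat.zero_le _
    rw [Finset.sum_const, Finset.card_range, smul_eq_mul] at h5
    have h6 : (s + 1) * dd f t s ≤ k * dd f t s := Nat.mul_le_mul_right _ (by omega)
    nlinarith
  calc (prot (dd f) s (k + 1)).length * (occL (dd f) (k + 1) s t).length
      ≤ Bt k t * (Bt k t * ((k + 1) * (1 + dd f t s))) := by
        refine Nat.mul_le_mul (h1.trans h2) (h3.trans ?_)
        exact Nat.mul_le_mul h2 h4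
    _ = Bt k t ^ 2 * (k + 1) * (1 + dd f t s) := by ring

section

variable {Θ : Type*} (G : Θ → Prog) [Finite Θ] [MeasurableSpace Θ] [MeasurableSingletonClass Θ]
  (μ : Measure Θ) [IsProbabilityMeasure μ]

/-- the probability bound of `measure_badEv_le` -/
noncomputable def Ph (d : ℕ → ℕ → ℕ) (s t : ℕ) : ℝ≥0∞ :=
  ∑' r, pR G μ d r s * (pW G μ d r t * (1 - pW G μ d r t) ^ (d t s))

theorem tsum_pR_le (d : ℕ → ℕ → ℕ) (s : ℕ) : ∑' r, pR G μ d r s ≤ 1 := by
  unfold pR
  rw [← measure_iUnion]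
  · exact prob_le_one
  · intro r r' hne
    rw [Function.onFun, Set.disjoint_left]
    intro τ h1 h2
    simp only [Set.mem_ofPred_eq, Rd] at h1 h2
    rw [h1] at h2
    injection h2 with h2
    exact hne h2
  · intro r
    exact (depOn_Rd G d r s).measurable

theorem sum_Ph_update {k : ℕ} (f : Fam k) (t s : Fin k) (hts : t ≤ s) :
    ∑ a : Fin (Jt k t), (1 + ((dd (Function.update f (t, s) a) t s : ℕ) : ℝ≥0∞)) *
      Ph G μ (dd (Function.update f (t, s) a)) s t ≤ 2 := by
  have hd : ∀ a : Fin (Jt k t), dd (Function.update f (t, s) a) t s =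
      4 ^ (((s : ℕ) - t) * Jt k t + 1 + a) := by
    intro a
    rw [dd_of_lt _ s.2]
    congr 2
    unfold jj
    rw [dif_pos ⟨t.2, s.2⟩]
    simp
  have hagree : ∀ a : Fin (Jt k t), ∀ a' b', a' ≤ b' → b' < (s : ℕ) →
      dd (Function.update f (t, s) a) a' b' = dd f a' b' := by
    intro a a' b' _ hb
    rw [dd_of_lt _ (hb.trans s.2), dd_of_lt _ (hb.trans s.2)]
    congr 2
    unfold jj
    split_ifs with h
    · rw [Function.update_of_ne]
      intro he
      simp only [Prod.mk.injEq] at he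
      have := congrArg Fin.val he.2
      simp only at this
      omega
    · rfl
  have hR : ∀ (a : Fin (Jt k t)) r, pR G μ (dd (Function.update f (t, s) a)) r s =
      pR G μ (dd f) r s := by
    intro a r
    unfold pR Rd
    congr 1
    ext τ
    simp only [Set.mem_ofPred_eq]
    rw [St_congr_d G (hagree a)]
  have hW : ∀ (a : Fin (Jt k t)) r, pW G μ (dd (Function.update f (t, s) a)) r t =
      pW G μ (dd f) r t := by
    intro a r
    unfold pW Wr
    congr 1
    ext τ
    simp only [Set.mem_ofPred_eq]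
    rw [St_congr_d G (fun a' b' h1 h2 => hagree a a' b' h1 (h2.trans_le hts))]
  have h1 : ∑ a : Fin (Jt k t), (1 + ((dd (Function.update f (t, s) a) t s : ℕ) : ℝ≥0∞)) *
      Ph G μ (dd (Function.update f (t, s) a)) s t =
      ∑' r, pR G μ (dd f) r s * ∑ a : Fin (Jt k t),
        (1 + (4 : ℝ≥0∞) ^ (((s : ℕ) - t) * Jt k t + 1 + a)) *
          (pW G μ (dd f) r t * (1 - pW G μ (dd f) r t) ^
            (4 ^ (((s : ℕ) - t) * Jt k t + 1 + (a : ℕ)))) := by
    unfold Ph
    simp only [hd, hR, hW, Nat.cast_pow, Nat.cast_ofNat, ← ENNReal.tsum_mul_left, Finset.mul_sum]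
    rw [← Summable.tsum_finsetSum (fun _ _ => ENNReal.summable)]
    refine tsum_congr fun r => ?_
    refine Finset.sum_congr rfl fun a _ => ?_
    ring
  rw [h1]
  calc ∑' r, pR G μ (dd f) r s * ∑ a : Fin (Jt k t),
        (1 + (4 : ℝ≥0∞) ^ (((s : ℕ) - t) * Jt k t + 1 + a)) *
          (pW G μ (dd f) r t * (1 - pW G μ (dd f) r t) ^
            (4 ^ (((s : ℕ) - t) * Jt k t + 1 + (a : ℕ))))
      ≤ ∑' r, pR G μ (dd f) r s * 2 := by
        refine ENNReal.tsum_le_tsum fun r => ?_
        refine mul_le_mul_right ?_ _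
        rw [Fin.sum_univ_eq_sum_range (fun a => (1 + (4 : ℝ≥0∞) ^ (((s : ℕ) - t) * Jt k t + 1 + a)) *
          (pW G μ (dd f) r t * (1 - pW G μ (dd f) r t) ^
            (4 ^ (((s : ℕ) - t) * Jt k t + 1 + a)))) (Jt k t)]
        exact scale_sum_ennreal prob_le_one _ _
    _ = (∑' r, pR G μ (dd f) r s) * 2 := ENNReal.tsum_mul_right
    _ ≤ 1 * 2 := mul_le_mul_left (tsum_pR_le G μ _ _) _
    _ = 2 := one_mul _

theorem sum_Ph_le {k : ℕ} (t s : Fin k) (hts : t ≤ s) :
    (Jt k t : ℝ≥0∞) * ∑ f : Fam k, (1 + ((dd f t s : ℕ) : ℝ≥0∞)) * Ph G μ (dd f) s t ≤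
      2 * Fintype.card (Fam k) := by
  have h := sum_update (α := fun p : Fin k × Fin k => Fin (Jt k p.1)) (t, s)
    (fun f : Fam k => (1 + ((dd f t s : ℕ) : ℝ≥0∞)) * Ph G μ (dd f) s t)
  rw [Fintype.card_fin] at h
  rw [← h]
  calc ∑ f : Fam k, ∑ a : Fin (Jt k t), (1 + ((dd (Function.update f (t, s) a) t s : ℕ) : ℝ≥0∞)) *
      Ph G μ (dd (Function.update f (t, s) a)) s t ≤ ∑ _f : Fam k, 2 :=
        Finset.sum_le_sum fun f _ => sum_Ph_update G μ f t s hts
    _ = 2 * Fintype.card (Fam k) := by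
        rw [Finset.sum_const, Finset.card_univ, nsmul_eq_mul, mul_comm]

/-- the event that some stage is not clean -/
def Bad (d : ℕ → ℕ → ℕ) (k : ℕ) : Set (Path → Θ) := {σ | ∃ s < k, ¬ Clean G d (k + 1) σ s}

omit [Finite Θ] [MeasurableSpace Θ] [MeasurableSingletonClass Θ] in
theorem bad_subset (d : ℕ → ℕ → ℕ) (k : ℕ) :
    Bad G d k ⊆ ⋃ s ∈ Finset.range k, ⋃ t ∈ Finset.range (s + 1),
      ⋃ p ∈ (prot d s (k + 1)).toFinset, ⋃ q ∈ (occL d (k + 1) s t).toFinset,
        {σ | ¬ PP p (s + 1) q ∧ BadEv G d s t p q σ} := by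
  classical
  intro σ hσ
  have hex : ∃ s, s < k ∧ ¬ Clean G d (k + 1) σ s := hσ
  have h1 := Nat.find_spec hex
  have h2 : ∀ s' < Nat.find hex, Clean G d (k + 1) σ s' := by
    intro s' hs'
    have := Nat.find_min hex hs'
    by_contra hcon
    exact this ⟨hs'.trans h1.1, hcon⟩
  obtain ⟨p, hp, t, ht, q, hq, _, _, h3, h4⟩ := exists_badEv G h2 h1.2
  simp only [Set.mem_iUnion]
  exact ⟨Nat.find hex, Finset.mem_range.2 h1.1, t, Finset.mem_range.2 (by omega), p,
    List.mem_toFinset.2 hp, q, List.mem_toFinset.2 hq, h3, h4⟩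

theorem measure_bad_le (d : ℕ → ℕ → ℕ) (k : ℕ) :
    Measure.infinitePi (fun _ : Path => μ) (Bad G d k) ≤
      ∑ s ∈ Finset.range k, ∑ t ∈ Finset.range (s + 1),
        ((((prot d s (k + 1)).length * (occL d (k + 1) s t).length : ℕ)) : ℝ≥0∞) * Ph G μ d s t := by
  refine (measure_mono (bad_subset G d k)).trans ?_
  refine (measure_biUnion_finset_le _ _).trans (Finset.sum_le_sum fun s _ => ?_)
  refine (measure_biUnion_finset_le _ _).trans (Finset.sum_le_sum fun t ht => ?_)
  rw [Finset.mem_range] at ht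
  have h1 : ∀ p ∈ (prot d s (k + 1)).toFinset, ∀ q ∈ (occL d (k + 1) s t).toFinset,
      Measure.infinitePi (fun _ : Path => μ) {σ | ¬ PP p (s + 1) q ∧ BadEv G d s t p q σ} ≤
        Ph G μ d s t := by
    intro p hp q _
    by_cases hpp : PP p (s + 1) q
    · have : {σ : Path → Θ | ¬ PP p (s + 1) q ∧ BadEv G d s t p q σ} = ∅ := by
        ext σ
        simp [hpp]
      rw [this, measure_empty]
      exact bot_le
    · refine (measure_mono ?_).trans
        (measure_badEv_le G μ (List.mem_toFinset.1 hp) (by omega : t ≤ s) hpp)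
      rintro σ ⟨_, h⟩
      exact h
  calc Measure.infinitePi (fun _ : Path => μ) (⋃ p ∈ (prot d s (k + 1)).toFinset,
        ⋃ q ∈ (occL d (k + 1) s t).toFinset, {σ | ¬ PP p (s + 1) q ∧ BadEv G d s t p q σ})
      ≤ ∑ p ∈ (prot d s (k + 1)).toFinset, ∑ q ∈ (occL d (k + 1) s t).toFinset,
          Ph G μ d s t := by
        refine (measure_biUnion_finset_le _ _).trans (Finset.sum_le_sum fun p hp => ?_)
        exact (measure_biUnion_finset_le _ _).trans (Finset.sum_le_sum fun q hq => h1 p hp q hq)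
    _ = (((prot d s (k + 1)).toFinset.card * (occL d (k + 1) s t).toFinset.card : ℕ) : ℝ≥0∞) *
          Ph G μ d s t := by
        rw [Finset.sum_const, Finset.sum_const, nsmul_eq_mul, nsmul_eq_mul]
        push_cast
        ring
    _ ≤ _ := by
        refine mul_le_mul_left ?_ _
        exact_mod_cast Nat.mul_le_mul (List.toFinset_card_le _) (List.toFinset_card_le _)

/-- On average over the scales, a violation has probability at most `1/16`. -/
theorem sum_bad_le {k : ℕ} (hk : 0 < k) :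
    16 * ∑ f : Fam k, Measure.infinitePi (fun _ : Path => μ) (Bad G (dd f) k) ≤
      Fintype.card (Fam k) := by
  have h1 : ∀ f : Fam k, Measure.infinitePi (fun _ : Path => μ) (Bad G (dd f) k) ≤
      ∑ s ∈ Finset.range k, ∑ t ∈ Finset.range (s + 1),
        ((Bt k t ^ 2 * (k + 1) : ℕ) : ℝ≥0∞) * ((1 + ((dd f t s : ℕ) : ℝ≥0∞)) *
          Ph G μ (dd f) s t) := by
    intro f
    refine (measure_bad_le G μ (dd f) k).trans ?_
    refine Finset.sum_le_sum fun s hs => Finset.sum_le_sum fun t ht => ?_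
    rw [Finset.mem_range] at hs ht
    rw [← mul_assoc]
    refine mul_le_mul_left ?_ _
    have := length_occL_le f hs (by omega : t ≤ s)
    exact_mod_cast this
  have h2 : ∑ f : Fam k, Measure.infinitePi (fun _ : Path => μ) (Bad G (dd f) k) ≤
      ∑ s ∈ Finset.range k, ∑ t ∈ Finset.range (s + 1),
        ((Bt k t ^ 2 * (k + 1) : ℕ) : ℝ≥0∞) * ∑ f : Fam k, ((1 + ((dd f t s : ℕ) : ℝ≥0∞)) *
          Ph G μ (dd f) s t) := by
    refine (Finset.sum_le_sum fun f _ => h1 f).trans ?_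
    rw [Finset.sum_comm]
    refine Finset.sum_le_sum fun s _ => ?_
    rw [Finset.sum_comm]
    refine Finset.sum_le_sum fun t _ => ?_
    rw [Finset.mul_sum]
  have h3 : ∀ s ∈ Finset.range k, ∀ t ∈ Finset.range (s + 1),
      ((16 * k ^ 2 : ℕ) : ℝ≥0∞) * (((Bt k t ^ 2 * (k + 1) : ℕ) : ℝ≥0∞) *
        ∑ f : Fam k, ((1 + ((dd f t s : ℕ) : ℝ≥0∞)) * Ph G μ (dd f) s t)) ≤
        Fintype.card (Fam k) := by
    intro s hs t ht
    rw [Finset.mem_range] at hs ht
    have h := sum_Ph_le G μ (k := k) ⟨t, by omega⟩ ⟨s, hs⟩ (by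
      rw [Fin.mk_le_mk]; omega)
    have hJ : ((Jt k t : ℕ) : ℝ≥0∞) =
        2 * (((16 * k ^ 2 : ℕ) : ℝ≥0∞) * ((Bt k t ^ 2 * (k + 1) : ℕ) : ℝ≥0∞)) := by
      have : Jt k t = 2 * ((16 * k ^ 2) * (Bt k t ^ 2 * (k + 1))) := by
        unfold Jt JJ Bt
        ring
      rw [this]
      push_cast
      ring
    simp only at h
    rw [hJ, mul_assoc, mul_assoc] at h
    rwa [ENNReal.mul_le_mul_iff_right (by norm_num) (by norm_num)] at h
  have hk2 : ((k ^ 2 : ℕ) : ℝ≥0∞) ≠ 0 := by
    simp only [ne_eq, Nat.cast_eq_zero]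
    positivity
  have hk3 : ((k ^ 2 : ℕ) : ℝ≥0∞) ≠ ⊤ := ENNReal.natCast_ne_top _
  rw [← ENNReal.mul_le_mul_iff_right hk2 hk3]
  calc ((k ^ 2 : ℕ) : ℝ≥0∞) * (16 * ∑ f : Fam k,
        Measure.infinitePi (fun _ : Path => μ) (Bad G (dd f) k))
      ≤ ((k ^ 2 : ℕ) : ℝ≥0∞) * (16 * ∑ s ∈ Finset.range k, ∑ t ∈ Finset.range (s + 1),
        ((Bt k t ^ 2 * (k + 1) : ℕ) : ℝ≥0∞) * ∑ f : Fam k, ((1 + ((dd f t s : ℕ) : ℝ≥0∞)) *
          Ph G μ (dd f) s t)) := by gcongr
    _ = ∑ s ∈ Finset.range k, ∑ t ∈ Finset.range (s + 1),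
        ((16 * k ^ 2 : ℕ) : ℝ≥0∞) * (((Bt k t ^ 2 * (k + 1) : ℕ) : ℝ≥0∞) *
          ∑ f : Fam k, ((1 + ((dd f t s : ℕ) : ℝ≥0∞)) * Ph G μ (dd f) s t)) := by
        rw [Finset.mul_sum, Finset.mul_sum]
        refine Finset.sum_congr rfl fun s _ => ?_
        rw [Finset.mul_sum, Finset.mul_sum]
        refine Finset.sum_congr rfl fun t _ => ?_
        push_cast
        ring
    _ ≤ ∑ s ∈ Finset.range k, ∑ _t ∈ Finset.range (s + 1), (Fintype.card (Fam k) : ℝ≥0∞) :=
        Finset.sum_le_sum fun s hs => Finset.sum_le_sum fun t ht => h3 s hs t ht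
    _ ≤ ∑ s ∈ Finset.range k, ∑ _t ∈ Finset.range k, (Fintype.card (Fam k) : ℝ≥0∞) := by
        refine Finset.sum_le_sum fun s hs => ?_
        refine Finset.sum_le_sum_of_subset ?_
        rw [Finset.mem_range] at hs
        exact Finset.range_subset_range.2 hs
    _ = ((k ^ 2 : ℕ) : ℝ≥0∞) * Fintype.card (Fam k) := by
        simp only [Finset.sum_const, Finset.card_range, nsmul_eq_mul]
        push_cast
        ring

end

end Pool.Agent.Lib.MP_2ab09f_lc
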