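import Mathlib
import Pool.Agent.Lib.MP_2ab09f_lc.Model
import Pool.Agent.Lib.MP_2ab09f_lc.Avg

/-!
From the tree-structured schedules to the lower bound.
-/

open MeasureTheory ProbabilityTheory
open scoped ENNReal

namespace Pool.Agent.Lib.MP_2ab09f_lc

/-! ### The deterministic part -/

/-- the second root -/
def j0 (k : ℕ) : Path := [⟨k, k, 0⟩]

/-- the roles taking steps -/
def roles (d : ℕ → ℕ → ℕ) (k c : ℕ) : List Path := (evts d k c).map Prod.fst

theorem count_roles {d : ℕ → ℕ → ℕ} {K t : ℕ} {y : Path} (hy : Valid d K y) (ht : t ≤ cls K y) :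
    t ≤ (roles d t K).count y := by
  unfold roles
  induction t with
  | zero => exact Nat.zero_le _
  | succ t ih =>
    rw [evts_succ, List.map_append, List.count_append]
    have h1 := ih (by omega)
    have h2 : 0 < ((sched d t K).map Prod.fst).count y := by
      rw [List.count_pos_iff, List.mem_map]
      refine ⟨(y, true), ?_, rfl⟩
      rw [mem_sched]
      exact Or.inl ⟨rfl, mem_prot.2 ⟨hy, by omega⟩⟩
    omega

theorem valid_j0 {k : ℕ} (f : Fam k) : Valid (dd f) (k + 1) (j0 k) := by
  refine ⟨Nat.lt_succ_self k, le_rfl, ?_, trivial⟩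
  simp only
  rw [dd_top_self]
  exact Nat.one_pos

theorem sub_roles {d : ℕ → ℕ → ℕ} {K k : ℕ} {y : Path} (hy : Valid d K y) (hk : k ≤ cls K y)
    {v : Path} (hv : v ∈ roles d k k) : y ++ v ∈ roles d k K := by
  classical
  unfold roles at hv ⊢
  rw [List.mem_map] at hv
  obtain ⟨e, he, rfl⟩ := hv
  have h := filter_evts hy hk
  have h2 : shift y e ∈ (evts d k k).map (shift y) := List.mem_map.2 ⟨e, he, rfl⟩
  rw [← h, List.mem_filter] at h2
  exact List.mem_map.2 ⟨_, h2.1, rfl⟩

theorem not_false_mem {d : ℕ → ℕ → ℕ} {k : ℕ} {y : Path} (hy : ∀ x ∈ y.getLast?, k ≤ x.s)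
    (K : ℕ) : (y, false) ∉ evts d k K := by
  intro h
  simp only [evts, List.mem_flatMap, List.mem_range] at h
  obtain ⟨s, hs, h⟩ := h
  rw [mem_sched] at h
  simp only [Bool.false_eq_true, false_and, true_and, false_or] at h
  obtain ⟨p, _, x, hx, rfl⟩ := h
  have h1 := hy x (by simp)
  have h2 := (mem_labs.1 hx).1
  omega

/-- good programs: agreement, and validity with respect to the participants -/
def Good {n : ℕ} (P : Fin n → Prog) (u : Fin n → ℕ) : Prop :=
  ∀ L : List (Fin n),
    (∀ p ∈ L, ∀ a, Outputs P (run P L) p a → ∃ q ∈ L, a = u q) ∧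
    ∀ p p' a a', Outputs P (run P L) p a → Outputs P (run P L) p' a' → a = a'

theorem hist_root {n k : ℕ} {P : Fin n → Prog} {f : Fam k} {σ : Path → Fin n}
    (hinj : Set.InjOn σ {v | v ∈ roles (dd f) k (k + 1)}) (hc : σ ∉ Bad P (dd f) k)
    {y : Path} (hy : Valid (dd f) (k + 1) y) (hk : k ≤ cls (k + 1) y)
    (hy2 : ∀ x ∈ y.getLast?, k ≤ x.s) (hk0 : 0 < k) :
    (run P ((roles (dd f) k (k + 1)).map σ)).hist (σ y) = St P (dd f) k (sub y σ) := by
  have hmem : y ∈ roles (dd f) k (k + 1) := by
    rw [← List.count_pos_iff]
    exact lt_of_lt_of_le hk0 (count_roles hy hk)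
  rw [(run_map hinj P _ (fun u hu => hu)).1 y hmem]
  have hc' : ∀ s < k, Clean P (dd f) (k + 1) σ s := by
    intro s hs
    by_contra hcon
    exact hc ⟨s, hs, hcon⟩
  rw [← hist_eq_St P hy hk hc']
  exact run_hist_eq (fun u => P (σ u)) (pairwise_evts _ _ _) (not_false_mem hy2 _)

theorem hist_own {n k : ℕ} {P : Fin n → Prog} {f : Fam k} {σ : Path → Fin n} {y : Path}
    (hinj : Set.InjOn (fun v => σ (y ++ v)) {v | v ∈ roles (dd f) k k}) (hk0 : 0 < k) :
    (run P ((roles (dd f) k k).map (fun v => σ (y ++ v)))).hist (σ y) =
      St P (dd f) k (sub y σ) := by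
  have hmem : [] ∈ roles (dd f) k k := by
    rw [← List.count_pos_iff]
    exact lt_of_lt_of_le hk0 (count_roles (d := dd f) (K := k) (t := k) (y := []) trivial le_rfl)
  have h1 := (run_map hinj P _ (fun u hu => hu)).1 [] hmem
  rw [List.append_nil] at h1
  rw [h1]
  exact run_hist_eq (fun u => P (σ (y ++ u))) (pairwise_evts _ _ _)
    (not_false_mem (by simp) _)

/-- If all reads are clean, one of the two roots has not output within `k` steps. -/
theorem busy_of_clean {n k : ℕ} (hk0 : 0 < k) {P : Fin n → Prog} {u : Fin n → ℕ}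
    (hu : Function.Injective u) (hP : Good P u) {f : Fam k} {σ : Path → Fin n}
    (hinj : Set.InjOn σ {v | v ∈ roles (dd f) k (k + 1)}) (hc : σ ∉ Bad P (dd f) k) :
    k ≤ ((run P ((roles (dd f) k (k + 1)).map σ)).hist (σ [])).length ∨
    k ≤ ((run P ((roles (dd f) k (k + 1)).map σ)).hist (σ (j0 k))).length := by
  by_contra hcon
  push Not at hcon
  have hv1 : Valid (dd f) (k + 1) [] := trivial
  have hv2 := valid_j0 f
  have hk1 : k ≤ cls (k + 1) [] := by simp
  have hk2 : k ≤ cls (k + 1) (j0 k) := le_rfl
  have hl1 : ∀ x ∈ ([] : Path).getLast?, k ≤ x.s := by simp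
  have hl2 : ∀ x ∈ (j0 k).getLast?, k ≤ x.s := by
    intro x hx
    simp only [j0, List.getLast?_singleton, Option.mem_some_iff] at hx
    subst hx
    exact le_rfl
  have main : ∀ y, Valid (dd f) (k + 1) y → k ≤ cls (k + 1) y → (∀ x ∈ y.getLast?, k ≤ x.s) →
      ((run P ((roles (dd f) k (k + 1)).map σ)).hist (σ y)).length < k →
      ∃ a, Outputs P (run P ((roles (dd f) k (k + 1)).map σ)) (σ y) a ∧
        ∃ v ∈ roles (dd f) k k, a = u (σ (y ++ v)) := by
    intro y hy hky hly hlen
    have h1 := run_length P ((roles (dd f) k (k + 1)).map σ) (σ y)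
    have h2 : k ≤ ((roles (dd f) k (k + 1)).map σ).count (σ y) :=
      (count_roles hy hky).trans List.count_le_count_map
    rcases h1 with h1 | ⟨a, ha⟩
    · omega
    · refine ⟨a, ha, ?_⟩
      have hinj2 : Set.InjOn (fun v => σ (y ++ v)) {v | v ∈ roles (dd f) k k} := by
        intro v hv w hw h
        have := hinj (sub_roles hy hky hv) (sub_roles hy hky hw) h
        exact List.append_cancel_left this
      have e1 := hist_root hinj hc hy hky hly hk0
      have e2 := hist_own (P := P) (f := f) (σ := σ) (y := y) hinj2 hk0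
      have hmem : σ y ∈ (roles (dd f) k k).map (fun v => σ (y ++ v)) := by
        rw [List.mem_map]
        refine ⟨[], ?_, by rw [List.append_nil]⟩
        rw [← List.count_pos_iff]
        exact lt_of_lt_of_le hk0
          (count_roles (d := dd f) (K := k) (t := k) (y := []) trivial le_rfl)
      obtain ⟨q, hq, hqa⟩ := (hP ((roles (dd f) k k).map (fun v => σ (y ++ v)))).1 (σ y) hmem a (by
        unfold Outputs
        rw [e2, ← e1]
        exact ha)
      rw [List.mem_map] at hq
      obtain ⟨v, hv, rfl⟩ := hq
      exact ⟨v, hv, hqa⟩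
  obtain ⟨a, ha, v, hv, rfl⟩ := main [] hv1 hk1 hl1 hcon.1
  obtain ⟨a', ha', v', hv', rfl⟩ := main (j0 k) hv2 hk2 hl2 hcon.2
  have h1 := (hP _).2 _ _ _ _ ha ha'
  have h2 := hu h1
  have h3 := hinj (sub_roles hv1 hk1 hv) (sub_roles hv2 hk2 hv') h2
  rw [List.nil_append] at h3
  subst h3
  have h4 : Valid (dd f) k (j0 k ++ v') := mem_evts_fst hv
  have h5 : k < k := h4.1
  exact lt_irrefl _ h5

/-! ### Measure-theoretic part -/

section

variable {n : ℕ} {Ω : Type*} [MeasurableSpace Ω]

theorem measurable_cases {α β : Type*} [Countable α] [MeasurableSpace β] {g : Ω → α}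
    (hg : ∀ a, MeasurableSet {ω | g ω = a}) {F : Ω → β} {F' : α → Ω → β}
    (hF' : ∀ a, Measurable (F' a)) (h : ∀ ω, F ω = F' (g ω) ω) : Measurable F := by
  intro S hS
  have : F ⁻¹' S = ⋃ a, {ω | g ω = a} ∩ (F' a) ⁻¹' S := by
    ext ω
    simp only [Set.mem_preimage, Set.mem_iUnion, Set.mem_inter_iff, Set.mem_ofPred_eq, h]
    constructor
    · intro hω
      exact ⟨g ω, rfl, hω⟩
    · rintro ⟨a, rfl, ha⟩
      exact ha
  rw [this]
  exact MeasurableSet.iUnion fun a => (hg a).inter (hF' a hS)

instance : Countable Act := by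
  have : Function.Injective (fun a : Act => match a with
    | .read r => ((0 : ℕ), r, (0 : ℕ))
    | .write r v => (1, r, v)
    | .out u => (2, u, 0)) := by
    intro a b h
    cases a <;> cases b <;> simp_all
  exact this.countable

theorem measurable_run (A : Alg n Ω) (u : Fin n → ℕ) (L : List (Fin n)) :
    (∀ p h, MeasurableSet {ω | (run (A.at u ω) L).hist p = h}) ∧
    ∀ r v, MeasurableSet {ω | (run (A.at u ω) L).mem r = v} := by
  induction L using List.reverseRecOn with
  | nil =>
    constructor
    · intro p h
      simp only [run, List.foldl_nil]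
      exact MeasurableSet.const _
    · intro r v
      simp only [run, List.foldl_nil]
      exact MeasurableSet.const _
  | append_singleton L q ih =>
    obtain ⟨ih1, ih2⟩ := ih
    let _ : MeasurableSpace (List ℕ) := ⊤
    have m1 : ∀ p, Measurable (fun ω => (run (A.at u ω) L).hist p) := by
      intro p
      refine measurable_to_countable' ?_
      intro h
      exact ih1 p h
    have m2 : ∀ r, Measurable (fun ω => (run (A.at u ω) L).mem r) := by
      intro r
      refine measurable_to_countable' ?_
      intro h
      exact ih2 r h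
    have hact : ∀ a, MeasurableSet {ω | A.at u ω q ((run (A.at u ω) L).hist q) = a} := by
      intro a
      have : {ω | A.at u ω q ((run (A.at u ω) L).hist q) = a} =
          ⋃ h, {ω | (run (A.at u ω) L).hist q = h} ∩ {ω | A.prog q (u q) ω h = a} := by
        ext ω
        simp only [Set.mem_ofPred_eq, Set.mem_iUnion, Set.mem_inter_iff]
        constructor
        · intro h
          exact ⟨_, rfl, h⟩
        · rintro ⟨h, rfl, h2⟩
          exact h2
      rw [this]
      exact MeasurableSet.iUnion fun h => (ih1 q h).inter (A.meas q (u q) h a)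
    have hh : ∀ p, Measurable (fun ω => (run (A.at u ω) (L ++ [q])).hist p) := by
      intro p
      refine measurable_cases hact (F' := fun a ω => match a with
        | .read r => if p = q then (run (A.at u ω) L).hist q ++ [(run (A.at u ω) L).mem r]
            else (run (A.at u ω) L).hist p
        | .write _ _ => if p = q then (run (A.at u ω) L).hist q ++ [0]
            else (run (A.at u ω) L).hist p
        | .out _ => (run (A.at u ω) L).hist p) ?_ ?_
      · intro a
        have c1 : ∀ l : List ℕ → ℕ → List ℕ, ∀ r,
            Measurable (fun ω => l ((run (A.at u ω) L).hist q) ((run (A.at u ω) L).mem r)) := by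
          intro l r
          refine measurable_cases (g := fun ω => ((run (A.at u ω) L).hist q,
            (run (A.at u ω) L).mem r)) ?_ (F' := fun x _ => l x.1 x.2)
            (fun _ => measurable_const) (fun _ => rfl)
          rintro ⟨h, v⟩
          have : {ω | ((run (A.at u ω) L).hist q, (run (A.at u ω) L).mem r) = (h, v)} =
              {ω | (run (A.at u ω) L).hist q = h} ∩ {ω | (run (A.at u ω) L).mem r = v} := by
            ext ω
            simp
          rw [this]
          exact (ih1 q h).inter (ih2 r v)
        cases a with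
        | read r =>
          by_cases hpq : p = q
          · simp only [hpq, if_true]
            exact c1 (fun h v => h ++ [v]) r
          · simp only [hpq, if_false]
            exact m1 p
        | write r v =>
          by_cases hpq : p = q
          · simp only [hpq, if_true]
            exact c1 (fun h _ => h ++ [0]) 0
          · simp only [hpq, if_false]
            exact m1 p
        | out a => exact m1 p
      · intro ω
        rw [run_append]
        unfold step
        cases hc : A.at u ω q ((run (A.at u ω) L).hist q) with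
        | read r =>
          by_cases hpq : p = q
          · subst hpq; simp
          · simp [hpq]
        | write r v =>
          by_cases hpq : p = q
          · subst hpq; simp
          · simp [hpq]
        | out a => simp
    have hm : ∀ r, Measurable (fun ω => (run (A.at u ω) (L ++ [q])).mem r) := by
      intro r
      refine measurable_cases hact (F' := fun a ω => match a with
        | .read _ => (run (A.at u ω) L).mem r
        | .write r' v => if r = r' then v else (run (A.at u ω) L).mem r
        | .out _ => (run (A.at u ω) L).mem r) ?_ ?_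
      · intro a
        cases a with
        | read r => exact m2 _
        | write r' v =>
          by_cases hr : r = r'
          · simp only [hr, if_true]
            exact measurable_const
          · simp only [hr, if_false]
            exact m2 r
        | out a => exact m2 r
      · intro ω
        rw [run_append]
        unfold step
        cases hc : A.at u ω q ((run (A.at u ω) L).hist q) with
        | read r' => simp
        | write r' v =>
          by_cases hr : r = r'
          · subst hr; simp
          · simp [hr]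
        | out a => simp
    constructor
    · intro p h
      exact hh p (MeasurableSpace.measurableSet_top (s := {h}))
    · intro r v
      exact hm r (measurableSet_singleton v)

theorem measurable_length (A : Alg n Ω) (u : Fin n → ℕ) (L : List (Fin n)) (p : Fin n) :
    Measurable (fun ω => (((run (A.at u ω) L).hist p).length : ℝ≥0∞)) := by
  refine measurable_cases (g := fun ω => (run (A.at u ω) L).hist p)
    (fun h => (measurable_run A u L).1 p h) (F' := fun h _ => (h.length : ℝ≥0∞))
    (fun _ => measurable_const) (fun _ => rfl)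

theorem measurableSet_prod {I Θ : Type*} [Finite Θ] [Nonempty Θ] [MeasurableSpace Θ]
    [MeasurableSingletonClass Θ] (S : Finset I) (E : Ω → Set (I → Θ))
    (h1 : ∀ ω, DepOn S (E ω)) (h2 : ∀ σ, MeasurableSet {ω | σ ∈ E ω}) :
    MeasurableSet {x : Ω × (I → Θ) | x.2 ∈ E x.1} := by
  classical
  obtain ⟨θ⟩ := ‹Nonempty Θ›
  let ext : (S → Θ) → I → Θ := fun τ i => if h : i ∈ S then τ ⟨i, h⟩ else θ
  have hcyl : ∀ τ : S → Θ, DepOn S {σ : I → Θ | ∀ v : S, σ v = τ v} := by
    intro τ σ σ' h3 h4 v
    rw [← h3 v v.2]
    exact h4 v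
  have : {x : Ω × (I → Θ) | x.2 ∈ E x.1} =
      ⋃ τ : S → Θ, {ω | ext τ ∈ E ω} ×ˢ {σ : I → Θ | ∀ v : S, σ v = τ v} := by
    ext ⟨ω, σ⟩
    simp only [Set.mem_ofPred_eq, Set.mem_iUnion, Set.mem_prod]
    constructor
    · intro h
      refine ⟨fun v => σ v, h1 ω σ _ ?_ h, fun v => rfl⟩
      intro v hv
      simp [ext, hv]
    · rintro ⟨τ, h3, h4⟩
      refine h1 ω _ σ ?_ h3
      intro v hv
      simp only [ext, dif_pos hv]
      exact (h4 ⟨v, hv⟩).symm
  rw [this]
  exact MeasurableSet.iUnion fun τ => (h2 _).prod (hcyl τ).measurable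

end

end Pool.Agent.Lib.MP_2ab09f_lc
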