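import Mathlib
import Pool.Agent.Lib.MP_2ab09f_lc.Outer

/-!
The expected number of steps per processor of randomized id consensus is unbounded.
-/

open MeasureTheory ProbabilityTheory
open scoped ENNReal

namespace Pool.Agent.Lib.MP_2ab09f_lc

variable {n : ℕ} {Ω : Type*} [MeasurableSpace Ω]

/-- For almost all coins, the programs are good. -/
theorem ae_good (A : Alg n Ω) (μ : Measure Ω) (hA : A.Correct μ) (u : Fin n → ℕ)
    (hu : Function.Injective u) : ∀ᵐ ω ∂μ, Good (A.at u ω) u := by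
  obtain ⟨w, hw⟩ : ∃ w, ∀ q, u q ≠ w := by
    refine ⟨(∑ q, u q) + 1, fun q => ?_⟩
    have : u q ≤ ∑ q, u q := Finset.single_le_sum (fun _ _ => Nat.zero_le _) (Finset.mem_univ q)
    omega
  have hu' : ∀ q, Function.Injective (Function.update u q w) := by
    intro q a b hab
    by_cases ha : a = q
    · subst ha
      by_cases hb : b = a
      · exact hb.symm
      · rw [Function.update_self, Function.update_of_ne hb] at hab
        exact absurd hab.symm (hw b)
    · by_cases hb : b = q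
      · subst hb
        rw [Function.update_self, Function.update_of_ne ha] at hab
        exact absurd hab (hw a)
      · rw [Function.update_of_ne ha, Function.update_of_ne hb] at hab
        exact hu hab
  have h1 : ∀ᵐ ω ∂μ, ∀ L : List (Fin n),
      (∀ p a, Outputs (A.at u ω) (run (A.at u ω) L) p a → ∃ q, a = u q) ∧
      ∀ p p' a a', Outputs (A.at u ω) (run (A.at u ω) L) p a →
        Outputs (A.at u ω) (run (A.at u ω) L) p' a' → a = a' := by
    rw [ae_all_iff]
    intro L
    exact hA u hu L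
  have h2 : ∀ᵐ ω ∂μ, ∀ q : Fin n, ∀ L : List (Fin n),
      (∀ p a, Outputs (A.at (Function.update u q w) ω)
        (run (A.at (Function.update u q w) ω) L) p a → ∃ q', a = Function.update u q w q') := by
    rw [ae_all_iff]
    intro q
    rw [ae_all_iff]
    intro L
    filter_upwards [hA _ (hu' q) L] with ω hω
    exact hω.1
  filter_upwards [h1, h2] with ω h1 h2 L
  refine ⟨?_, (h1 L).2⟩
  intro p hp a ha
  obtain ⟨q, hq⟩ := (h1 L).1 p a ha
  refine ⟨q, ?_, hq⟩
  by_contra hqL
  have hcong : ∀ e ∈ L, A.at (Function.update u q w) ω e = A.at u ω e := by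
    intro e he
    have : e ≠ q := by
      rintro rfl
      exact hqL he
    unfold Alg.at
    rw [Function.update_of_ne this]
  have hout : Outputs (A.at (Function.update u q w) ω)
      (run (A.at (Function.update u q w) ω) L) p a := by
    unfold Outputs
    rw [run_congr hcong, hcong p hp]
    exact ha
  obtain ⟨q', hq'⟩ := h2 q L p a hout
  by_cases h : q' = q
  · subst h
    rw [Function.update_self] at hq'
    exact hw q' (hq.symm.trans hq')
  · rw [Function.update_of_ne h] at hq'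
    exact h (hu (hq'.symm.trans hq))

section

variable {I Θ : Type*} [Fintype Θ] [MeasurableSpace Θ] [MeasurableSingletonClass Θ]

theorem measure_coord_eq (ν : Measure Θ) [IsProbabilityMeasure ν] {c : ℝ≥0∞}
    (hν : ∀ a, ν {a} = c) {v w : I} (hvw : v ≠ w) :
    Measure.infinitePi (fun _ : I => ν) {σ | σ v = σ w} ≤ (Fintype.card Θ : ℝ≥0∞) * (c * c) := by
  classical
  have hsub : {σ : I → Θ | σ v = σ w} ⊆ ⋃ a : Θ, ({σ | σ v = a} ∩ {σ | σ w = a}) := by
    intro σ hσ
    exact Set.mem_iUnion.2 ⟨σ v, rfl, hσ.symm⟩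
  have hone : ∀ (x : I) (a : Θ), Measure.infinitePi (fun _ : I => ν) {σ | σ x = a} = c := by
    intro x a
    have h := Measure.infinitePi_map_eval (fun _ : I => ν) x
    have h2 : (Measure.infinitePi (fun _ : I => ν)).map (fun σ => σ x) {a} = c := by
      rw [h, hν]
    rw [Measure.map_apply (measurable_pi_apply x) (measurableSet_singleton a)] at h2
    exact h2
  have hdep : ∀ (x : I) (a : Θ), DepOn ({x} : Finset I) {σ : I → Θ | σ x = a} := by
    intro x a σ σ' h h1
    simp only [Set.mem_ofPred_eq] at h1 ⊢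
    rw [← h x (by simp)]
    exact h1
  calc Measure.infinitePi (fun _ : I => ν) {σ | σ v = σ w}
      ≤ ∑ a : Θ, Measure.infinitePi (fun _ : I => ν) ({σ | σ v = a} ∩ {σ | σ w = a}) :=
        (measure_mono hsub).trans (measure_iUnion_fintype_le _ _)
    _ = ∑ _a : Θ, c * c := by
        refine Finset.sum_congr rfl fun a _ => ?_
        rw [DepOn.indep ν (hdep v a) (hdep w a) (by simpa using hvw), hone, hone]
    _ = (Fintype.card Θ : ℝ≥0∞) * (c * c) := by
        rw [Finset.sum_const, Finset.card_univ, nsmul_eq_mul]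

theorem measure_not_inj (ν : Measure Θ) [IsProbabilityMeasure ν] {c : ℝ≥0∞}
    (hν : ∀ a, ν {a} = c) [DecidableEq I] (V : Finset I) :
    Measure.infinitePi (fun _ : I => ν) {σ | ¬ Set.InjOn σ V} ≤
      (V.card : ℝ≥0∞) ^ 2 * ((Fintype.card Θ : ℝ≥0∞) * (c * c)) := by
  have hsub : {σ : I → Θ | ¬ Set.InjOn σ V} ⊆
      ⋃ x ∈ V ×ˢ V, {σ : I → Θ | x.1 ≠ x.2 ∧ σ x.1 = σ x.2} := by
    intro σ hσ
    simp only [Set.mem_ofPred_eq, Set.InjOn] at hσ
    push Not at hσ
    obtain ⟨v, hv, w, hw, h1, h2⟩ := hσ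
    simp only [Set.mem_iUnion]
    exact ⟨(v, w), Finset.mem_product.2 ⟨hv, hw⟩, h2, h1⟩
  refine (measure_mono hsub).trans ((measure_biUnion_finset_le _ _).trans ?_)
  calc ∑ x ∈ V ×ˢ V, Measure.infinitePi (fun _ : I => ν) {σ : I → Θ | x.1 ≠ x.2 ∧ σ x.1 = σ x.2}
      ≤ ∑ _x ∈ V ×ˢ V, ((Fintype.card Θ : ℝ≥0∞) * (c * c)) := by
        refine Finset.sum_le_sum fun x _ => ?_
        by_cases hx : x.1 = x.2
        · have : {σ : I → Θ | x.1 ≠ x.2 ∧ σ x.1 = σ x.2} = ∅ := by
            ext σ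
            simp [hx]
          rw [this, measure_empty]
          exact bot_le
        · refine (measure_mono ?_).trans (measure_coord_eq ν hν hx)
          rintro σ ⟨_, h⟩
          exact h
    _ = (V.card : ℝ≥0∞) ^ 2 * ((Fintype.card Θ : ℝ≥0∞) * (c * c)) := by
        rw [Finset.sum_const, Finset.card_product, nsmul_eq_mul]
        push_cast
        ring

end

/-- The lower bound, in terms of a bound `N` on the number of roles. -/
theorem main_aux (C k N : ℕ) (hk : k = 16 * (C + 1))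
    (hN : ∀ f : Fam k, (roles (dd f) k (k + 1)).length ≤ N)
    {n : ℕ} (hn : 16 * N ^ 2 + 1 ≤ n) {Ω : Type*} [MeasurableSpace Ω] (μ : Measure Ω)
    [IsProbabilityMeasure μ] (A : Alg n Ω) (hA : A.Correct μ) (u : Fin n → ℕ)
    (hu : Function.Injective u) :
    ∃ (L : List (Fin n)) (p : Fin n), (C : ℝ≥0∞) < A.expSteps μ u L p := by
  classical
  have hk0 : 0 < k := by omega
  by_contra hcon
  push Not at hcon
  have hn0 : 0 < n := by omega
  have : NeZero n := ⟨hn0.ne'⟩
  -- random assignment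
  set ν0 : Measure (Fin n) := (PMF.uniformOfFintype (Fin n)).toMeasure with hν0
  have hν : ∀ a : Fin n, ν0 {a} = (n : ℝ≥0∞)⁻¹ := by
    intro a
    rw [hν0, PMF.toMeasure_apply_singleton _ _ (measurableSet_singleton a),
      PMF.uniformOfFintype_apply, Fintype.card_fin]
  set ν : Measure (Path → Fin n) := Measure.infinitePi (fun _ : Path => ν0) with hνdef
  -- Markov
  have hMarkov : ∀ (L : List (Fin n)) (p : Fin n),
      16 * μ {ω | k ≤ ((run (A.at u ω) L).hist p).length} ≤ 1 := by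
    intro L p
    have h1 := mul_meas_ge_le_lintegral (μ := μ) (measurable_length A u L p) (k : ℝ≥0∞)
    have h2 : {ω | (k : ℝ≥0∞) ≤ (((run (A.at u ω) L).hist p).length : ℝ≥0∞)} =
        {ω | k ≤ ((run (A.at u ω) L).hist p).length} := by
      ext ω
      simp
    rw [h2] at h1
    have h3 := h1.trans (hcon L p)
    have h4 : (k : ℝ≥0∞) = (C + 1 : ℕ) * 16 := by
      rw [hk]; push_cast; ring
    rw [h4, mul_assoc] at h3
    have h5 : ((C + 1 : ℕ) : ℝ≥0∞) * (16 * μ {ω | k ≤ ((run (A.at u ω) L).hist p).length}) ≤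
        ((C + 1 : ℕ) : ℝ≥0∞) * 1 := by
      rw [mul_one]
      refine h3.trans ?_
      exact_mod_cast Nat.le_succ C
    rwa [ENNReal.mul_le_mul_iff_right (by simp) (ENNReal.natCast_ne_top _)] at h5
  -- the sets
  let V : Fam k → Finset Path := fun f => (roles (dd f) k (k + 1)).toFinset
  let S : Fam k → Path → Ω → Set (Path → Fin n) := fun f y ω =>
    {σ | Set.InjOn σ (V f) ∧ k ≤ ((run (A.at u ω) ((roles (dd f) k (k + 1)).map σ)).hist
      (σ y)).length}
  have hVset : ∀ f : Fam k, ((V f : Finset Path) : Set Path) = {v | v ∈ roles (dd f) k (k + 1)} := by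
    intro f
    ext v
    simp [V]
  have hmem1 : ∀ f : Fam k, ([] : Path) ∈ V f := by
    intro f
    rw [List.mem_toFinset, ← List.count_pos_iff]
    exact lt_of_lt_of_le hk0 (count_roles (K := k + 1) trivial (by simp))
  have hmem2 : ∀ f : Fam k, j0 k ∈ V f := by
    intro f
    rw [List.mem_toFinset, ← List.count_pos_iff]
    exact lt_of_lt_of_le hk0 (count_roles (valid_j0 f) le_rfl)
  have hcover : ∀ ω, Good (A.at u ω) u → ∀ f : Fam k,
      (Set.univ : Set (Path → Fin n)) ⊆ Bad (A.at u ω) (dd f) k ∪ {σ | ¬ Set.InjOn σ (V f)} ∪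
        (S f [] ω ∪ S f (j0 k) ω) := by
    intro ω hω f σ _
    by_cases h1 : σ ∈ Bad (A.at u ω) (dd f) k
    · exact Or.inl (Or.inl h1)
    · by_cases h2 : Set.InjOn σ (V f)
      · right
        have h3 : Set.InjOn σ {v | v ∈ roles (dd f) k (k + 1)} := by rw [← hVset]; exact h2
        rcases busy_of_clean hk0 hu hω h3 h1 with h | h
        · exact Or.inl ⟨h2, h⟩
        · exact Or.inr ⟨h2, h⟩
      · exact Or.inl (Or.inr h2)
  have hSmeas : ∀ f y, y ∈ V f → MeasurableSet {x : Ω × (Path → Fin n) | x.2 ∈ S f y x.1} := by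
    intro f y hy
    refine measurableSet_prod (V f) (S f y) ?_ ?_
    · rintro ω σ σ' h ⟨h1, h2⟩
      have e1 : (roles (dd f) k (k + 1)).map σ = (roles (dd f) k (k + 1)).map σ' := by
        apply List.map_congr_left
        intro v hv
        exact h v (List.mem_toFinset.2 hv)
      refine ⟨?_, ?_⟩
      · intro a ha b hb hab
        rw [← h a ha, ← h b hb] at hab
        exact h1 ha hb hab
      · rw [← e1, ← h y hy]
        exact h2
    · intro σ
      by_cases h1 : Set.InjOn σ (V f)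
      · have : {ω | σ ∈ S f y ω} = {ω | (k : ℝ≥0∞) ≤
            (((run (A.at u ω) ((roles (dd f) k (k + 1)).map σ)).hist (σ y)).length : ℝ≥0∞)} := by
          ext ω
          simp [S, h1]
        rw [this]
        exact measurableSet_le measurable_const (measurable_length A u _ _)
      · have : {ω | σ ∈ S f y ω} = ∅ := by
          ext ω
          simp [S, h1]
        rw [this]
        exact MeasurableSet.empty
  have hSint : ∀ f y, y ∈ V f → 16 * ∫⁻ ω, ν (S f y ω) ∂μ ≤ 1 := by
    intro f y hy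
    have h1 := Measure.prod_apply (μ := μ) (ν := ν) (hSmeas f y hy)
    have h2 := Measure.prod_apply_symm (μ := μ) (ν := ν) (hSmeas f y hy)
    have e1 : ∫⁻ ω, ν (S f y ω) ∂μ = ∫⁻ σ, μ {ω | σ ∈ S f y ω} ∂ν := by
      rw [h1] at h2
      exact h2
    rw [e1]
    rw [← lintegral_const_mul' _ _ (by norm_num)]
    calc ∫⁻ σ, 16 * μ {ω | σ ∈ S f y ω} ∂ν ≤ ∫⁻ _σ, 1 ∂ν := by
          refine lintegral_mono fun σ => ?_
          refine le_trans ?_ (hMarkov ((roles (dd f) k (k + 1)).map σ) (σ y))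
          gcongr
          intro h
          exact h.2
      _ = 1 := by simp
  have hSm : ∀ f y, y ∈ V f → Measurable (fun ω => ν (S f y ω)) := by
    intro f y hy
    exact measurable_measure_prodMk_left (hSmeas f y hy)
  have hinj : ∀ f, 16 * ν {σ | ¬ Set.InjOn σ (V f)} ≤ 1 := by
    intro f
    have h1 := measure_not_inj (I := Path) ν0 hν (V f)
    rw [Fintype.card_fin] at h1
    have h2 : (n : ℝ≥0∞) * ((n : ℝ≥0∞)⁻¹ * (n : ℝ≥0∞)⁻¹) = (n : ℝ≥0∞)⁻¹ := by
      rw [← mul_assoc, ENNReal.mul_inv_cancel (by simpa using hn0.ne') (ENNReal.natCast_ne_top _),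
        one_mul]
    rw [h2] at h1
    have h3 : (V f).card ≤ N := (List.toFinset_card_le _).trans (hN f)
    have h4 : 16 * (V f).card ^ 2 ≤ n := by
      have : (V f).card ^ 2 ≤ N ^ 2 := Nat.pow_le_pow_left h3 2
      omega
    calc 16 * ν {σ | ¬ Set.InjOn σ (V f)} ≤ 16 * (((V f).card : ℝ≥0∞) ^ 2 * (n : ℝ≥0∞)⁻¹) := by
          gcongr
      _ = ((16 * (V f).card ^ 2 : ℕ) : ℝ≥0∞) * (n : ℝ≥0∞)⁻¹ := by push_cast; ring
      _ ≤ (n : ℝ≥0∞) * (n : ℝ≥0∞)⁻¹ := by
          gcongr
      _ = 1 := ENNReal.mul_inv_cancel (by simpa using hn0.ne') (ENNReal.natCast_ne_top _)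
  set F : ℝ≥0∞ := (Fintype.card (Fam k) : ℝ≥0∞) with hF
  have hFpos : F ≠ 0 := by
    rw [hF]
    have : Nonempty (Fam k) := ⟨fun p => ⟨0, Jt_pos hk0⟩⟩
    exact Nat.cast_ne_zero.2 Fintype.card_ne_zero
  have hFtop : F ≠ ⊤ := ENNReal.natCast_ne_top _
  -- pointwise inequality
  have hpt : ∀ᵐ ω ∂μ, 16 * F ≤ 2 * F +
      ∑ f : Fam k, (16 * ν (S f [] ω) + 16 * ν (S f (j0 k) ω)) := by
    filter_upwards [ae_good A μ hA u hu] with ω hω
    have h1 : ∀ f : Fam k, (16 : ℝ≥0∞) ≤ (16 * ν (Bad (A.at u ω) (dd f) k) + 1) +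
        (16 * ν (S f [] ω) + 16 * ν (S f (j0 k) ω)) := by
      intro f
      have h2 : (1 : ℝ≥0∞) ≤ (ν (Bad (A.at u ω) (dd f) k) + ν {σ | ¬ Set.InjOn σ (V f)}) +
          (ν (S f [] ω) + ν (S f (j0 k) ω)) := by
        calc (1 : ℝ≥0∞) = ν Set.univ := by rw [measure_univ]
          _ ≤ ν (Bad (A.at u ω) (dd f) k ∪ {σ | ¬ Set.InjOn σ (V f)} ∪
              (S f [] ω ∪ S f (j0 k) ω)) := measure_mono (hcover ω hω f)
          _ ≤ _ := by
              refine (measure_union_le _ _).trans (add_le_add ?_ ?_)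
              · exact measure_union_le _ _
              · exact measure_union_le _ _
      calc (16 : ℝ≥0∞) = 16 * 1 := by rw [mul_one]
        _ ≤ 16 * ((ν (Bad (A.at u ω) (dd f) k) + ν {σ | ¬ Set.InjOn σ (V f)}) +
          (ν (S f [] ω) + ν (S f (j0 k) ω))) := by gcongr
        _ = (16 * ν (Bad (A.at u ω) (dd f) k) + 16 * ν {σ | ¬ Set.InjOn σ (V f)}) +
          (16 * ν (S f [] ω) + 16 * ν (S f (j0 k) ω)) := by ring
        _ ≤ _ := by
          gcongr
          exact hinj f
    calc 16 * F = ∑ _f : Fam k, (16 : ℝ≥0∞) := by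
          rw [Finset.sum_const, Finset.card_univ, nsmul_eq_mul, mul_comm]
      _ ≤ ∑ f : Fam k, ((16 * ν (Bad (A.at u ω) (dd f) k) + 1) +
          (16 * ν (S f [] ω) + 16 * ν (S f (j0 k) ω))) := Finset.sum_le_sum fun f _ => h1 f
      _ = (16 * ∑ f : Fam k, ν (Bad (A.at u ω) (dd f) k) + F) +
          ∑ f : Fam k, (16 * ν (S f [] ω) + 16 * ν (S f (j0 k) ω)) := by
          rw [Finset.sum_add_distrib, Finset.sum_add_distrib, Finset.mul_sum, Finset.sum_const,
            Finset.card_univ, nsmul_eq_mul, mul_one]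
      _ ≤ (F + F) + ∑ f : Fam k, (16 * ν (S f [] ω) + 16 * ν (S f (j0 k) ω)) := by
          gcongr
          exact sum_bad_le (A.at u ω) ν0 hk0
      _ = _ := by rw [two_mul]
  -- integrate
  have hint : 16 * F ≤ 2 * F + 2 * F := by
    calc 16 * F = ∫⁻ _ω, 16 * F ∂μ := by simp
      _ ≤ ∫⁻ ω, (2 * F + ∑ f : Fam k, (16 * ν (S f [] ω) + 16 * ν (S f (j0 k) ω))) ∂μ :=
          lintegral_mono_ae hpt
      _ = 2 * F + ∑ f : Fam k, (16 * ∫⁻ ω, ν (S f [] ω) ∂μ + 16 * ∫⁻ ω, ν (S f (j0 k) ω) ∂μ) := by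
          rw [lintegral_add_left measurable_const, lintegral_const, measure_univ, mul_one,
            lintegral_finsetSum]
          · congr 1
            refine Finset.sum_congr rfl fun f _ => ?_
            rw [lintegral_add_left ((hSm f [] (hmem1 f)).const_mul _),
              lintegral_const_mul' _ _ (by norm_num), lintegral_const_mul' _ _ (by norm_num)]
          · intro f _
            exact ((hSm f [] (hmem1 f)).const_mul _).add ((hSm f _ (hmem2 f)).const_mul _)
      _ ≤ 2 * F + ∑ _f : Fam k, (1 + 1) := by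
          gcongr with f
          · exact hSint f [] (hmem1 f)
          · exact hSint f _ (hmem2 f)
      _ = 2 * F + 2 * F := by
          rw [Finset.sum_const, Finset.card_univ, nsmul_eq_mul]
          ring
  have h16 : 16 * F ≤ 4 * F := by
    refine hint.trans (le_of_eq ?_)
    ring
  rw [ENNReal.mul_le_mul_iff_left hFpos hFtop] at h16
  norm_num at h16

/-! ### Explicit bounds -/

theorem bb_mono (k : ℕ) : Monotone (bb k) := by
  refine monotone_nat_of_le_succ fun i => ?_
  rw [bb]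
  exact Nat.le_mul_of_pos_right _ (by positivity)

theorem length_roles_le {k : ℕ} (hk : 0 < k) (f : Fam k) :
    (roles (dd f) k (k + 1)).length ≤ k * bb k k := by
  have hb0 : bb k k = bb k (k - 1) * (1 + k * 4 ^ (k * JJ k (bb k (k - 1)))) := by
    obtain ⟨k', rfl⟩ : ∃ k', k = k' + 1 := ⟨k - 1, by omega⟩
    rw [bb]
    rfl
  have hs : ∀ s < k, (sched (dd f) s (k + 1)).length ≤ bb k k := by
    intro s hs
    have h1 : (prot (dd f) s (k + 1)).length ≤ bb k (k - 1) :=
      (length_prot_le' f hs).trans (bb_mono k (by omega))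
    have h2 : (labs (dd f) s).length ≤ k * 4 ^ (k * JJ k (bb k (k - 1))) := by
      unfold labs
      rw [List.length_flatMap]
      simp only [List.length_map, List.length_range]
      rw [← List.sum_toFinset _ List.nodup_range, List.toFinset_range]
      calc ∑ t ∈ Finset.range (s + 1), dd f t s
          ≤ ∑ _t ∈ Finset.range (s + 1), 4 ^ (k * JJ k (bb k (k - 1))) := by
            refine Finset.sum_le_sum fun t _ => (dd_le f hs).trans ?_
            refine Nat.pow_le_pow_right (by norm_num) (Nat.mul_le_mul_left _ ?_)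
            unfold Jt JJ
            refine Nat.mul_le_mul_left _ (Nat.pow_le_pow_left (bb_mono k (by omega)) 2)
        _ = (s + 1) * 4 ^ (k * JJ k (bb k (k - 1))) := by simp
        _ ≤ k * 4 ^ (k * JJ k (bb k (k - 1))) := Nat.mul_le_mul_right _ (by omega)
    have h3 : (sched (dd f) s (k + 1)).length =
        (prot (dd f) s (k + 1)).length * ((labs (dd f) s).length + 1) := by
      unfold sched
      rw [List.length_flatMap]
      simp only [block, List.length_append, List.length_map, List.length_singleton,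
        List.map_const', List.sum_replicate, smul_eq_mul]
    rw [h3, hb0]
    exact Nat.mul_le_mul h1 (by omega)
  unfold roles evts
  rw [List.length_map, List.length_flatMap, ← List.sum_toFinset _ List.nodup_range,
    List.toFinset_range]
  calc ∑ s ∈ Finset.range k, (sched (dd f) s (k + 1)).length ≤ ∑ _s ∈ Finset.range k, bb k k :=
        Finset.sum_le_sum fun s h => hs s (Finset.mem_range.1 h)
    _ = k * bb k k := by simp

theorem pow_six_le {x : ℕ} (hx : 64 ≤ x) : 130 * x ^ 6 ≤ 2 ^ x := by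
  induction x, hx using Nat.le_induction with
  | base => norm_num
  | succ x hx ih =>
    have h1 : (x + 1) ^ 6 ≤ 2 * x ^ 6 := by
      have h2 : x + 1 ≤ x + x / 64 := by omega
      have h3 : 64 * (x + 1) ≤ 65 * x := by omega
      have h4 : (64 * (x + 1)) ^ 6 ≤ (65 * x) ^ 6 := Nat.pow_le_pow_left h3 6
      rw [mul_pow, mul_pow] at h4
      have h5 : 65 ^ 6 * x ^ 6 ≤ 64 ^ 6 * (2 * x ^ 6) := by nlinarith [Nat.zero_le (x ^ 6)]
      have h6 := h4.trans h5
      exact Nat.le_of_mul_le_mul_left h6 (by norm_num)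
    calc 130 * (x + 1) ^ 6 ≤ 2 * (130 * x ^ 6) := by omega
      _ ≤ 2 * 2 ^ x := Nat.mul_le_mul_left _ ih
      _ = 2 ^ (x + 1) := by rw [pow_succ]; ring

theorem tower_mono : Monotone tower := by
  refine monotone_nat_of_le_succ fun i => ?_
  exact (Nat.lt_two_pow_self).le

theorem le_tower (m : ℕ) : m ≤ tower m := by
  induction m with
  | zero => exact Nat.zero_le _
  | succ m ih =>
    have : tower m < tower (m + 1) := Nat.lt_two_pow_self
    omega

theorem bb_step {k x b : ℕ} (hk : k ≤ x) (hb : b ≤ x) (hx : 64 ≤ x) :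
    b * (1 + k * 4 ^ (k * JJ k b)) ≤ 2 ^ 2 ^ x := by
  have h1 : k * JJ k b ≤ 64 * x ^ 6 := by
    unfold JJ
    calc k * (32 * k ^ 2 * (k + 1) * b ^ 2) ≤ x * (32 * x ^ 2 * (x + x) * x ^ 2) := by
          gcongr
          omega
      _ = 64 * x ^ 6 := by ring
  have h2 : (1 + k * 4 ^ (k * JJ k b)) ≤ 2 * x * 4 ^ (64 * x ^ 6) := by
    have h3 : k * 4 ^ (k * JJ k b) ≤ x * 4 ^ (64 * x ^ 6) := by gcongr; norm_num
    have h4 : 1 ≤ x * 4 ^ (64 * x ^ 6) := Nat.one_le_iff_ne_zero.2 (by positivity)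
    calc 1 + k * 4 ^ (k * JJ k b) ≤ x * 4 ^ (64 * x ^ 6) + x * 4 ^ (64 * x ^ 6) := by omega
      _ = 2 * x * 4 ^ (64 * x ^ 6) := by ring
  have hx2 : x ≤ 2 ^ x := (Nat.lt_two_pow_self).le
  have h5 : x + 1 ≤ x ^ 6 := by
    have : x * x ≤ x ^ 6 := by
      calc x * x = x ^ 2 := by ring
        _ ≤ x ^ 6 := Nat.pow_le_pow_right (by omega) (by norm_num)
    nlinarith
  calc b * (1 + k * 4 ^ (k * JJ k b)) ≤ x * (2 * x * 4 ^ (64 * x ^ 6)) := Nat.mul_le_mul hb h2
    _ ≤ 2 ^ x * (2 * 2 ^ x * 4 ^ (64 * x ^ 6)) := by gcongr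
    _ = 2 ^ (2 * x + 1 + 128 * x ^ 6) := by
        rw [show (4 : ℕ) = 2 ^ 2 by norm_num, ← pow_mul, pow_add, pow_add, pow_one]
        ring
    _ ≤ 2 ^ 2 ^ x := by
        refine Nat.pow_le_pow_right (by norm_num) ?_
        have := pow_six_le hx
        nlinarith

theorem tower_succ (m : ℕ) : tower (m + 1) = 2 ^ tower m := rfl

theorem tower_one : tower 1 = 2 := rfl

theorem tower_ge {m : ℕ} (hm : 4 ≤ m) : 64 ≤ tower m := by
  have h3 : tower 4 ≤ tower m := tower_mono hm
  have h4 : tower 4 = 65536 := by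
    rw [tower_succ, tower_succ, tower_succ, tower_one]
    norm_num
  omega

theorem bb_le_tower (k i : ℕ) : bb k i ≤ tower (k + 4 + 2 * i) := by
  induction i with
  | zero =>
    have h1 : tower 1 ≤ tower (k + 4 + 2 * 0) := tower_mono (by omega)
    rw [tower_one] at h1
    exact h1
  | succ i ih =>
    rw [bb]
    have h1 : k ≤ tower (k + 4 + 2 * i) := (le_tower k).trans (tower_mono (by omega))
    have h2 : 64 ≤ tower (k + 4 + 2 * i) := tower_ge (by omega)
    have h3 := bb_step h1 ih h2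
    have h4 : tower (k + 4 + 2 * (i + 1)) = 2 ^ 2 ^ tower (k + 4 + 2 * i) := by
      rw [show k + 4 + 2 * (i + 1) = (k + 4 + 2 * i) + 1 + 1 by ring, tower_succ, tower_succ]
    rw [h4]
    exact h3

theorem num_bound {k b x n : ℕ} (h2 : k ≤ x) (h1 : b ≤ x) (h3 : 64 ≤ x) (hn : 2 ^ x ≤ n) :
    16 * (k * b) ^ 2 + 1 ≤ n := by
  have h4 : (k * b) ^ 2 ≤ (x * x) ^ 2 := Nat.pow_le_pow_left (Nat.mul_le_mul h2 h1) 2
  have h6 := pow_six_le h3
  have h7 : (x * x) ^ 2 ≤ x ^ 6 := by
    calc (x * x) ^ 2 = x ^ 4 := by ring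
      _ ≤ x ^ 6 := Nat.pow_le_pow_right (by omega) (by norm_num)
  have h8 : 1 ≤ x ^ 6 := Nat.one_le_iff_ne_zero.2 (by positivity)
  omega

/-- **Main theorem.** Explicit lower bound of order `log* n`. -/
theorem main (C n : ℕ) (hn : tower (60 * (C + 1)) ≤ n) {Ω : Type*} [MeasurableSpace Ω]
    (μ : Measure Ω) [IsProbabilityMeasure μ] (A : Alg n Ω) (hA : A.Correct μ) (u : Fin n → ℕ)
    (hu : Function.Injective u) :
    ∃ (L : List (Fin n)) (p : Fin n), (C : ℝ≥0∞) < A.expSteps μ u L p := by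
  obtain ⟨k, hk⟩ : ∃ k, k = 16 * (C + 1) := ⟨_, rfl⟩
  refine main_aux C k (k * bb k k) hk (fun f => length_roles_le (by omega) f) ?_ μ A hA u hu
  have h6 : 2 ^ tower (k + 4 + 2 * k) ≤ n := by
    rw [← tower_succ]
    exact (tower_mono (by omega)).trans hn
  exact num_bound ((le_tower k).trans (tower_mono (by omega))) (bb_le_tower k k)
    (tower_ge (by omega)) h6

end Pool.Agent.Lib.MP_2ab09f_lc
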